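import Mathlib

set_option autoImplicit false

/-!
First step for the sum of `(11k+3) C(2k,k)^2 C(3k,k) / 64^k`: a WZ-type identity.
-/

namespace Pool.Agent.H434R2.Eleven

open Finset

/-- the summand without the linear factor -/
noncomputable def tt (k : ℕ) : ℚ := ((2 * k).choose k : ℚ) ^ 2 * ((3 * k).choose k : ℚ) / 64 ^ k

/-- the WZ mate, with `N = M + 1`. -/
noncomputable def FF (M j : ℕ) : ℚ :=
  24 * (M + 1) * ((2 * (M + 1)).choose (M + 1) : ℚ) / 16 ^ (M + 1) *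
    ((2 * M + 1 + j).choose M : ℚ) * ((2 * j).choose j : ℚ) / 4 ^ j

lemma cb_succ (n : ℕ) : ((n : ℚ) + 1) * ((2 * (n + 1)).choose (n + 1) : ℚ)
    = 2 * (2 * n + 1) * ((2 * n).choose n : ℚ) := by
  have h := Nat.succ_mul_centralBinom_succ n
  rw [Nat.centralBinom_eq_two_mul_choose, Nat.centralBinom_eq_two_mul_choose] at h
  exact_mod_cast h

lemma K_succ_right (M j : ℕ) : ((2 * M + 1 + (j + 1)).choose M : ℚ) * (M + 2 + j)
    = ((2 * M + 1 + j).choose M : ℚ) * (2 * M + 2 + j) := by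
  have h := Nat.choose_mul_succ_eq (2 * M + 1 + j) M
  have e : 2 * M + 1 + j + 1 - M = M + 2 + j := by omega
  rw [e] at h
  have h' : ((2 * M + 1 + j).choose M * (2 * M + 1 + j + 1) : ℕ) =
    (2 * M + 1 + (j + 1)).choose M * (M + 2 + j) := h
  have := congrArg (Nat.cast : ℕ → ℚ) h'
  push_cast at this
  linarith

lemma K_succ_left (M j : ℕ) : ((2 * (M + 1) + 1 + j).choose (M + 1) : ℚ) * ((M + 1) * (M + 2 + j))
    = ((2 * M + 1 + j).choose M : ℚ) * ((2 * M + 3 + j) * (2 * M + 2 + j)) := by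
  -- C(n+2,k+1) (k+1) = (n+2) C(n+1,k); C(n+1,k) (n+1-k) = (n+1) C(n,k)
  have h1 := Nat.add_one_mul_choose_eq (2 * M + 2 + j) M
  have h2 := K_succ_right M j
  have h1' : ((2 * M + 2 + j + 1) * (2 * M + 2 + j).choose M : ℕ) =
    (2 * (M + 1) + 1 + j).choose (M + 1) * (M + 1) := by
    rw [h1]
    congr 2
    ring_nf
  have h3 := congrArg (Nat.cast : ℕ → ℚ) h1'
  push_cast at h3
  have e : (2 * M + 1 + (j + 1)) = 2 * M + 2 + j := by ring
  rw [e] at h2
  calc ((2 * (M + 1) + 1 + j).choose (M + 1) : ℚ) * ((M + 1) * (M + 2 + j))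
      = (((2 * (M + 1) + 1 + j).choose (M + 1) : ℚ) * (M + 1)) * (M + 2 + j) := by ring
    _ = ((2 * M + 2 + j + 1) * ((2 * M + 2 + j).choose M : ℚ)) * (M + 2 + j) := by rw [← h3]
    _ = (2 * M + 2 + j + 1) * (((2 * M + 2 + j).choose M : ℚ) * (M + 2 + j)) := by ring
    _ = _ := by rw [h2]; ring

lemma FF_step (M j : ℕ) : FF (M + 1) j - FF M j =
    (((j + 1 : ℕ) : ℚ) ^ 2 / (4 * (M + 1) ^ 2)) * FF M (j + 1) - ((j : ℚ) ^ 2 / (4 * (M + 1) ^ 2)) * FF M j := by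
  unfold FF
  have hb := cb_succ (M + 1)
  have hk1 := K_succ_right M j
  have hk2 := K_succ_left M j
  have hj := cb_succ j
  have hM1 : ((M : ℚ) + 1) ≠ 0 := by positivity
  have hM2 : ((M : ℚ) + 2) ≠ 0 := by positivity
  have hMj : ((M : ℚ) + 2 + j) ≠ 0 := by positivity
  have hj1 : ((j : ℚ) + 1) ≠ 0 := by positivity
  have hM1' : (((M + 1 : ℕ) : ℚ) + 1) ≠ 0 := by positivity
  have hb' : ((2 * (M + 1 + 1)).choose (M + 1 + 1) : ℚ) =
      2 * (2 * (M + 1) + 1) * ((2 * (M + 1)).choose (M + 1) : ℚ) / (M + 2) := by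
    rw [eq_div_iff hM2]
    push_cast at hb
    linarith
  have hj' : ((2 * (j + 1)).choose (j + 1) : ℚ) = 2 * (2 * j + 1) * ((2 * j).choose j : ℚ) / (j + 1) := by
    rw [eq_div_iff hj1]; linarith
  have hk1' : ((2 * M + 1 + (j + 1)).choose M : ℚ) =
      ((2 * M + 1 + j).choose M : ℚ) * (2 * M + 2 + j) / (M + 2 + j) := by
    rw [eq_div_iff hMj]; linarith
  have hk2' : ((2 * (M + 1) + 1 + j).choose (M + 1) : ℚ) =
      ((2 * M + 1 + j).choose M : ℚ) * ((2 * M + 3 + j) * (2 * M + 2 + j)) / ((M + 1) * (M + 2 + j)) := by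
    rw [eq_div_iff (by positivity)]; linarith
  rw [hb', hj', hk1', hk2']
  generalize ((2 * (M + 1)).choose (M + 1) : ℚ) = A
  generalize ((2 * M + 1 + j).choose M : ℚ) = B
  generalize ((2 * j).choose j : ℚ) = C
  push_cast
  field_simp
  ring

lemma FF_diag (M : ℕ) : FF M (M + 1) = 8 * (M + 1) * tt (M + 1) := by
  unfold FF tt
  have h : ((3 * (M + 1)).choose (M + 1) : ℚ) = 3 * ((2 * M + 1 + (M + 1)).choose M : ℚ) := by
    have h1 := Nat.add_one_mul_choose_eq (3 * M + 2) M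
    have e1 : 2 * M + 1 + (M + 1) = 3 * M + 2 := by ring
    have e2 : 3 * (M + 1) = 3 * M + 2 + 1 := by ring
    rw [e1, e2]
    have h2 := congrArg (Nat.cast : ℕ → ℚ) h1
    push_cast at h2
    have hM1 : ((M : ℚ) + 1) ≠ 0 := by positivity
    apply mul_right_cancel₀ hM1
    linarith
  rw [h]
  have e : (64 : ℚ) ^ (M + 1) = 16 ^ (M + 1) * 4 ^ (M + 1) := by
    rw [← mul_pow]; norm_num
  rw [e]
  field_simp
  ring

lemma FF_diag2 (M : ℕ) : FF (M + 1) (M + 1) = 3 * (3 * (M + 1) + 1) * tt (M + 1) := by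
  have h := FF_diag M
  have h2 : FF (M + 1) (M + 1) = FF M (M + 1) * (3 * (3 * (M + 1) + 1)) / (8 * (M + 1)) := by
    unfold FF
    have hb := cb_succ (M + 1)
    have hk2 := K_succ_left M (M + 1)
    have hM1 : ((M : ℚ) + 1) ≠ 0 := by positivity
    have hM2 : ((M : ℚ) + 2) ≠ 0 := by positivity
    have hMj : ((M : ℚ) + 2 + ((M + 1 : ℕ) : ℚ)) ≠ 0 := by positivity
    have hb' : ((2 * (M + 1 + 1)).choose (M + 1 + 1) : ℚ) =
        2 * (2 * (M + 1) + 1) * ((2 * (M + 1)).choose (M + 1) : ℚ) / (M + 2) := by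
      rw [eq_div_iff hM2]
      push_cast at hb
      linarith
    have hk2' : ((2 * (M + 1) + 1 + (M + 1)).choose (M + 1) : ℚ) =
        ((2 * M + 1 + (M + 1)).choose M : ℚ) * ((2 * M + 3 + ((M + 1 : ℕ) : ℚ)) * (2 * M + 2 + ((M + 1 : ℕ) : ℚ))) / ((M + 1) * (M + 2 + ((M + 1 : ℕ) : ℚ))) := by
      rw [eq_div_iff (by positivity)]; linarith
    rw [hb', hk2']
    generalize ((2 * (M + 1)).choose (M + 1) : ℚ) = A
    generalize ((2 * M + 1 + (M + 1)).choose M : ℚ) = B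
    push_cast
    have h3 : (2 * (M : ℚ) + 3) ≠ 0 := by positivity
    have h3' : ((M : ℚ) + 2 + (M + 1)) ≠ 0 := by positivity
    field_simp
    ring
  rw [h2, h]
  have hM1 : ((M : ℚ) + 1) ≠ 0 := by positivity
  field_simp

/-- The WZ identity. -/
theorem wz (M : ℕ) : ∑ k ∈ range (M + 1), (11 * (k : ℚ) + 3) * tt k = ∑ j ∈ range (M + 1), FF M j := by
  induction M with
  | zero => simp [tt, FF]; norm_num
  | succ M ih =>
    rw [sum_range_succ, ih, sum_range_succ _ (M + 1)]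
    have h1 : ∑ j ∈ range (M + 1), (FF (M + 1) j - FF M j) =
        (((M + 1 : ℕ) : ℚ) ^ 2 / (4 * (M + 1) ^ 2)) * FF M (M + 1) - ((0 : ℕ) : ℚ) ^ 2 / (4 * (M + 1) ^ 2) * FF M 0 := by
      rw [← Finset.sum_range_sub (fun j => ((j : ℚ) ^ 2 / (4 * (M + 1) ^ 2)) * FF M j) (M + 1)]
      apply sum_congr rfl
      intro j _
      rw [FF_step]
    rw [sum_sub_distrib] at h1
    have hM1 : ((M : ℚ) + 1) ≠ 0 := by positivity
    have h2 : ∑ j ∈ range (M + 1), FF (M + 1) j = ∑ j ∈ range (M + 1), FF M j + FF M (M + 1) / 4 := by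
      have : (((M + 1 : ℕ) : ℚ) ^ 2 / (4 * (M + 1) ^ 2)) * FF M (M + 1) = FF M (M + 1) / 4 := by
        push_cast
        field_simp
      rw [this] at h1
      simp at h1
      linarith
    rw [h2, FF_diag, FF_diag2]
    push_cast
    ring

end Pool.Agent.H434R2.Eleven
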