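import Pool.Agent.H434R2.ElevenA

set_option autoImplicit false

/-!
Second step: Lagrange interpolation at `1/2`.
-/

namespace Pool.Agent.H434R2.Eleven

open Finset Polynomial

lemma alt_diff (m x r : ℕ) (hr : m ≤ r) :
    ∑ j ∈ range (m + 1), (-1 : ℚ) ^ j * (m.choose j : ℚ) * ((x + j).choose r : ℚ) =
      (-1) ^ m * (x.choose (r - m) : ℚ) := by
  induction m generalizing x with
  | zero => simp
  | succ m ih =>
    have h0 : ∑ j ∈ range (m + 1 + 1), (-1 : ℚ) ^ j * ((m + 1).choose j : ℚ) * ((x + j).choose r : ℚ)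
      = ∑ j ∈ range (m + 1), (-1 : ℚ) ^ j * (m.choose j : ℚ) * ((x + j).choose r : ℚ)
        - ∑ j ∈ range (m + 1), (-1 : ℚ) ^ j * (m.choose j : ℚ) * ((x + 1 + j).choose r : ℚ) := by
      rw [sum_range_succ' _ (m + 1)]
      have h1 : ∑ j ∈ range (m + 1), (-1 : ℚ) ^ (j + 1) * ((m + 1).choose (j + 1) : ℚ) * ((x + (j + 1)).choose r : ℚ)
        = ∑ j ∈ range (m + 1), (-1 : ℚ) ^ (j + 1) * (m.choose (j + 1) : ℚ) * ((x + (j + 1)).choose r : ℚ)
          - ∑ j ∈ range (m + 1), (-1 : ℚ) ^ j * (m.choose j : ℚ) * ((x + 1 + j).choose r : ℚ) := by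
        rw [← sum_sub_distrib]
        apply sum_congr rfl
        intro j _
        rw [Nat.choose_succ_succ' m j]
        have e : x + (j + 1) = x + 1 + j := by ring
        rw [e]
        push_cast
        ring
      rw [h1]
      have h2 : ∑ j ∈ range (m + 1), (-1 : ℚ) ^ j * (m.choose j : ℚ) * ((x + j).choose r : ℚ) =
          ∑ j ∈ range (m + 1), (-1 : ℚ) ^ (j + 1) * (m.choose (j + 1) : ℚ) * ((x + (j + 1)).choose r : ℚ)
          + (-1 : ℚ) ^ 0 * (m.choose 0 : ℚ) * ((x + 0).choose r : ℚ) := by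
        rw [← sum_range_succ' (fun j => (-1 : ℚ) ^ j * (m.choose j : ℚ) * ((x + j).choose r : ℚ)) (m + 1)]
        rw [sum_range_succ _ (m + 1)]
        simp
      rw [h2]
      simp
      ring
    rw [h0, ih x (by omega), ih (x + 1) (by omega)]
    obtain ⟨s, hs⟩ : ∃ s, r - m = s + 1 := ⟨r - m - 1, by omega⟩
    have hs' : r - (m + 1) = s := by omega
    rw [hs, hs', Nat.choose_succ_succ']
    push_cast
    ring

lemma prod_erase_sub (M m : ℕ) (hm : m ≤ M) :
    ∏ l ∈ (range (M + 1)).erase m, ((l : ℚ) - m) = (-1) ^ m * (m.factorial : ℚ) * ((M - m).factorial : ℚ) := by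
  induction M, hm using Nat.le_induction with
  | base =>
    have h : (range (m + 1)).erase m = range m := by
      ext l; simp; omega
    rw [h]
    have h2 : ∏ l ∈ range m, ((l : ℚ) - m) = ∏ l ∈ range m, (-((l : ℚ) + 1)) := by
      rw [← Finset.prod_range_reflect]
      apply prod_congr rfl
      intro l hl
      have hl' := mem_range.1 hl
      have : ((m - 1 - l : ℕ) : ℚ) = m - 1 - l := by
        rw [Nat.cast_sub (by omega), Nat.cast_sub (by omega)]; simp
      rw [this]; ring
    rw [h2, prod_neg]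
    have h3 : ∏ l ∈ range m, ((l : ℚ) + 1) = m.factorial := by
      rw [← Finset.prod_range_add_one_eq_factorial]; push_cast; rfl
    rw [h3]; simp
  | succ M hm ih =>
    have h : (range (M + 1 + 1)).erase m = insert (M + 1) ((range (M + 1)).erase m) := by
      ext l; simp; omega
    rw [h, prod_insert (by simp), ih]
    have e : M + 1 - m = (M - m) + 1 := by omega
    rw [e, Nat.factorial_succ]
    push_cast
    rw [Nat.cast_sub hm]
    ring

lemma asc_half (j : ℕ) : (ascPochhammer ℚ j).eval (1 / 2) / (j.factorial : ℚ) = ((2 * j).choose j : ℚ) / 4 ^ j := by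
  induction j with
  | zero => simp
  | succ j ih =>
    have hb := cb_succ j
    have hj1 : ((j : ℚ) + 1) ≠ 0 := by positivity
    have hf : (j.factorial : ℚ) ≠ 0 := by positivity
    have hj' : ((2 * (j + 1)).choose (j + 1) : ℚ) = 2 * (2 * j + 1) * ((2 * j).choose j : ℚ) / (j + 1) := by
      rw [eq_div_iff hj1]; linarith
    rw [ascPochhammer_succ_eval, Nat.factorial_succ, hj']
    have ih' : (ascPochhammer ℚ j).eval (1 / 2) = ((2 * j).choose j : ℚ) / 4 ^ j * j.factorial := by
      rw [← ih]; field_simp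
    rw [ih']
    push_cast
    field_simp
    ring

lemma asc_prod (j : ℕ) : (ascPochhammer ℚ j).eval (1 / 2) = ∏ l ∈ range j, (1 / 2 + (l : ℚ)) := by
  induction j with
  | zero => simp
  | succ j ih => rw [ascPochhammer_succ_eval, ih, prod_range_succ]

/-- General Lagrange-type identity for Newton series with nodes `0,-1,…,-M`, evaluated at `1/2`. -/
lemma newton_lagrange (M : ℕ) (K : ℕ → ℚ) :
    ∑ j ∈ range (M + 1), K j * (((2 * j).choose j : ℚ) / 4 ^ j) =
      ∑ m ∈ range (M + 1), (∑ j ∈ range (m + 1), (-1 : ℚ) ^ j * (m.choose j : ℚ) * K j) *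
        ((-1) ^ m * (M.choose m : ℚ) * (((ascPochhammer ℚ (M + 1)).eval (1 / 2)) / (M.factorial : ℚ)) / (m + 1 / 2)) := by
  classical
  set P : Polynomial ℚ := ∑ j ∈ range (M + 1), C (K j / (j.factorial : ℚ)) * ascPochhammer ℚ j with hP
  have hdeg : P.degree < ((range (M + 1)).card : ℕ) := by
    rw [card_range, hP]
    refine lt_of_le_of_lt (degree_sum_le _ _) ?_
    rw [Finset.sup_lt_iff (by exact_mod_cast WithBot.bot_lt_coe _)]
    intro j hj
    have hj' := mem_range.1 hj
    refine lt_of_le_of_lt degree_le_natDegree ?_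
    have h5 := natDegree_C_mul_le (K j / (j.factorial : ℚ)) (ascPochhammer ℚ j)
    rw [ascPochhammer_natDegree] at h5
    exact_mod_cast (lt_of_le_of_lt h5 hj')
  have hinj : Set.InjOn (fun m : ℕ => -(m : ℚ)) (range (M + 1) : Finset ℕ) := by
    intro a _ b _ h
    simp at h
    exact h
  have hL := Lagrange.eq_interpolate hinj hdeg
  have hev := congrArg (Polynomial.eval (1 / 2 : ℚ)) hL
  have hleft : P.eval (1 / 2 : ℚ) = ∑ j ∈ range (M + 1), K j * (((2 * j).choose j : ℚ) / 4 ^ j) := by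
    rw [hP, eval_finsetSum]
    apply sum_congr rfl
    intro j _
    rw [eval_mul, eval_C, ← asc_half]
    ring
  rw [← hleft, hev, Lagrange.interpolate_apply, eval_finsetSum]
  apply sum_congr rfl
  intro m hm
  have hm' : m ≤ M := by have := mem_range.1 hm; omega
  rw [eval_mul, eval_C]
  congr 1
  · -- value at -m
    rw [hP, eval_finsetSum]
    have hsub : range (m + 1) ⊆ range (M + 1) := by
      intro x hx; simp at hx ⊢; omega
    rw [← Finset.sum_subset hsub]
    · apply sum_congr rfl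
      intro j hj
      rw [eval_mul, eval_C, ascPochhammer_eval_neg_eq_descPochhammer, descPochhammer_eval_eq_descFactorial,
        Nat.descFactorial_eq_factorial_mul_choose]
      have hf : (j.factorial : ℚ) ≠ 0 := by positivity
      push_cast
      field_simp
    · intro j _ hj
      have : m < j := by simp at hj; omega
      rw [eval_mul, ascPochhammer_eval_neg_eq_descPochhammer, descPochhammer_eval_eq_descFactorial,
        Nat.descFactorial_eq_factorial_mul_choose, Nat.choose_eq_zero_of_lt this]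
      simp
  · -- basis
    unfold Lagrange.basis Lagrange.basisDivisor
    rw [eval_prod]
    have h1 : ∏ j ∈ (range (M + 1)).erase m, eval (1 / 2 : ℚ) (C (-(m : ℚ) - -(j : ℚ))⁻¹ * (X - C (-(j : ℚ))))
        = (∏ j ∈ (range (M + 1)).erase m, ((j : ℚ) - m))⁻¹ * ∏ j ∈ (range (M + 1)).erase m, (1 / 2 + (j : ℚ)) := by
      rw [← prod_inv_distrib, ← prod_mul_distrib]
      apply prod_congr rfl
      intro j _
      rw [eval_mul, eval_C, eval_sub, eval_X, eval_C]
      congr 1
      · congr 1; ring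
      · ring
    rw [h1, prod_erase_sub M m hm', asc_prod]
    have h2 : ∏ l ∈ range (M + 1), (1 / 2 + (l : ℚ)) = (1 / 2 + (m : ℚ)) * ∏ j ∈ (range (M + 1)).erase m, (1 / 2 + (j : ℚ)) := by
      exact (Finset.mul_prod_erase (range (M + 1)) (fun l : ℕ => (1 / 2 + (l : ℚ))) hm).symm
    rw [h2, Nat.cast_choose ℚ hm']
    have hf1 : (m.factorial : ℚ) ≠ 0 := by positivity
    have hf2 : (M.factorial : ℚ) ≠ 0 := by positivity
    have hf3 : ((M - m).factorial : ℚ) ≠ 0 := by positivity
    have hf4 : ((m : ℚ) + 1 / 2) ≠ 0 := by positivity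
    have hs : ((-1 : ℚ) ^ m)⁻¹ = (-1) ^ m := by
      rcases neg_one_pow_eq_or ℚ m with h | h <;> rw [h] <;> norm_num
    rw [mul_inv, mul_inv, hs]
    field_simp
    ring

/-- The second form of the sum. -/
theorem second_form (M : ℕ) : ∑ k ∈ range (M + 1), (11 * (k : ℚ) + 3) * tt k =
    48 * (M + 1) ^ 2 * ((2 * (M + 1)).choose (M + 1) : ℚ) ^ 2 / 64 ^ (M + 1) *
      ∑ m ∈ range (M + 1), (M.choose m : ℚ) * ((2 * M + 1).choose (M + 1 + m) : ℚ) / (2 * m + 1) := by
  rw [wz]
  have h1 : ∑ j ∈ range (M + 1), FF M j = (24 * (M + 1) * ((2 * (M + 1)).choose (M + 1) : ℚ) / 16 ^ (M + 1)) *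
      ∑ j ∈ range (M + 1), ((2 * M + 1 + j).choose M : ℚ) * (((2 * j).choose j : ℚ) / 4 ^ j) := by
    rw [mul_sum]
    apply sum_congr rfl
    intro j _
    unfold FF
    ring
  rw [h1, newton_lagrange, mul_sum, mul_sum]
  apply sum_congr rfl
  intro m hm
  have hm' : m ≤ M := by have := mem_range.1 hm; omega
  rw [alt_diff m (2 * M + 1) M hm']
  have h3 : (ascPochhammer ℚ (M + 1)).eval (1 / 2) / (M.factorial : ℚ) = (M + 1) * (((2 * (M + 1)).choose (M + 1) : ℚ) / 4 ^ (M + 1)) := by
    rw [← asc_half, Nat.factorial_succ]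
    have hf2 : (M.factorial : ℚ) ≠ 0 := by positivity
    have hM1 : ((M : ℚ) + 1) ≠ 0 := by positivity
    push_cast
    field_simp
  rw [h3]
  have h4 : ((2 * M + 1).choose (M - m) : ℚ) = ((2 * M + 1).choose (M + 1 + m) : ℚ) := by
    have : (2 * M + 1).choose (M + 1 + m) = (2 * M + 1).choose (M - m) := by
      rw [← Nat.choose_symm (by omega : M + 1 + m ≤ 2 * M + 1)]
      congr 1; omega
    rw [this]
  rw [h4]
  have hs : ((-1 : ℚ) ^ m) * (-1) ^ m = 1 := by
    rw [← mul_pow]; simp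
  have e : (64 : ℚ) ^ (M + 1) = 16 ^ (M + 1) * 4 ^ (M + 1) := by
    rw [← mul_pow]; norm_num
  rw [e]
  have hf4 : ((m : ℚ) + 1 / 2) ≠ 0 := by positivity
  have hf5 : (2 * (m : ℚ) + 1) ≠ 0 := by positivity
  generalize ((2 * (M + 1)).choose (M + 1) : ℚ) = A
  generalize ((2 * M + 1).choose (M + 1 + m) : ℚ) = B
  generalize (M.choose m : ℚ) = D
  have : (-1 : ℚ) ^ m * B * ((-1) ^ m * D * ((M + 1) * (A / 4 ^ (M + 1))) / (m + 1 / 2)) =
     ((-1 : ℚ) ^ m * (-1) ^ m) * (B * (D * ((M + 1) * (A / 4 ^ (M + 1))) / (m + 1 / 2))) := by ring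
  rw [this, hs]
  field_simp
  ring

end Pool.Agent.H434R2.Eleven
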