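import Pool.Agent.H434R2.PO

set_option autoImplicit false
set_option linter.unusedSectionVars false

/-!
Third step: `p`-adic expansions.
-/

namespace Pool.Agent.H434R2

namespace PO

variable {p : ℕ} [hp : Fact p.Prime]

lemma of_ofNat (n : ℕ) [n.AtLeastTwo] : PO p 0 (OfNat.ofNat n : ℚ) := by
  have := of_nat (p := p) (OfNat.ofNat n)
  simpa using this

lemma inv_two (h2 : p ≠ 2) : PO p 0 ((2 : ℚ)⁻¹) := by
  have := half (p := p) h2
  rwa [one_div] at this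

/-- expansion of products -/
lemma prod_expand {ι : Type*} {k l : ℕ} (hkl : k ≤ l + l) (s : Finset ι) (f g : ι → ℚ)
    (hf : ∀ i ∈ s, PO p k (f i - 1 - g i)) (hg : ∀ i ∈ s, PO p l (g i)) :
    PO p k (∏ i ∈ s, f i - 1 - ∑ i ∈ s, g i) ∧ PO p l (∑ i ∈ s, g i) := by
  classical
  induction s using Finset.induction_on with
  | empty => simp [zero]
  | insert a s ha ih =>
    obtain ⟨ih1, ih2⟩ := ih (fun i hi => hf i (Finset.mem_insert_of_mem hi))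
      (fun i hi => hg i (Finset.mem_insert_of_mem hi))
    have hfa := hf a (Finset.mem_insert_self _ _)
    have hga := hg a (Finset.mem_insert_self _ _)
    rw [Finset.prod_insert ha, Finset.sum_insert ha]
    refine ⟨?_, hga.add ih2⟩
    set F := ∏ i ∈ s, f i
    set G := ∑ i ∈ s, g i
    have e : f a * F - 1 - (g a + G) = g a * G + (f a - 1 - g a) * (1 + G + (F - 1 - G)) + (F - 1 - G) * (1 + g a) := by
      ring
    rw [e]
    have h1 : PO p k (g a * G) := (hga.mul ih2).mono hkl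
    have h2 : PO p 0 (1 + G + (F - 1 - G)) := (one.add (ih2.mono (Nat.zero_le _))).add (ih1.mono (Nat.zero_le _))
    have h3 : PO p 0 (1 + g a) := one.add (hga.mono (Nat.zero_le _))
    exact (h1.add (hfa.mul0' h2)).add (ih1.mul0' h3)

end PO

open PO Finset

section expansions

variable {p : ℕ} [hp : Fact p.Prime]

/-- reflection `N/i ↦ N/(N-i)` -/
noncomputable def rfl' (x : ℚ) : ℚ := -x / (1 - x)

lemma rfl_one {x : ℚ} (hx : PO p 1 x) : PO p 2 (rfl' x + x) := by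
  have h := one_sub_ne hx
  have e : rfl' x + x = x ^ 2 * (-(1 - x)⁻¹) := by
    unfold rfl'; field_simp; ring
  rw [e]
  exact (hx.pow 2).mul0' (inv_one_sub hx).neg

lemma rfl_PO {x : ℚ} (hx : PO p 1 x) : PO p 1 (rfl' x) := by
  have e : rfl' x = x * (-(1 - x)⁻¹) := by unfold rfl'; ring
  rw [e]
  exact hx.mul0' (inv_one_sub hx).neg

lemma rfl_sq {x : ℚ} (hx : PO p 1 x) : PO p 3 (rfl' x ^ 2 - x ^ 2) := by
  have h := one_sub_ne hx
  have e : rfl' x ^ 2 - x ^ 2 = x ^ 3 * ((2 - x) * ((1 - x)⁻¹) ^ 2) := by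
    unfold rfl'; field_simp; ring
  rw [e]
  have hx0 := hx.mono (Nat.zero_le 1)
  exact (hx.pow 3).mul0' (((of_ofNat 2).sub hx0).mul0 ((inv_one_sub hx).pow0 2))

lemma rfl_sq' {x : ℚ} (hx : PO p 1 x) : PO p 4 (rfl' x ^ 2 - x ^ 2 - 2 * x ^ 3) := by
  have h := one_sub_ne hx
  have e : rfl' x ^ 2 - x ^ 2 - 2 * x ^ 3 = x ^ 4 * ((3 - 2 * x) * ((1 - x)⁻¹) ^ 2) := by
    unfold rfl'; field_simp; ring
  rw [e]
  have hx0 := hx.mono (Nat.zero_le 1)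
  exact (hx.pow 4).mul0' (((of_ofNat 3).sub ((of_ofNat 2).mul0 hx0)).mul0 ((inv_one_sub hx).pow0 2))

lemma rfl_cube {x : ℚ} (hx : PO p 1 x) : PO p 4 (rfl' x ^ 3 + x ^ 3) := by
  have h := one_sub_ne hx
  have e : rfl' x ^ 3 + x ^ 3 = x ^ 4 * ((-3 + 3 * x - x ^ 2) * ((1 - x)⁻¹) ^ 3) := by
    unfold rfl'; field_simp; ring
  rw [e]
  have hx0 := hx.mono (Nat.zero_le 1)
  exact (hx.pow 4).mul0' (((((of_ofNat 3).neg.add ((of_ofNat 3).mul0 hx0))).sub (hx0.pow0 2)).mul0 ((inv_one_sub hx).pow0 3))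

/-- the factor `(1-x)^2/(1+x)` -/
noncomputable def chi (x : ℚ) : ℚ := (1 - x) ^ 2 / (1 + x)

noncomputable def psi (x : ℚ) : ℚ := (1 + x) ^ 2 * (1 - 2 * x) ^ 3 * (1 - x / 2) ^ 6 / (1 - x) ^ 7

lemma psi_expand (h2 : p ≠ 2) {x : ℚ} (hx : PO p 1 x) :
    PO p 4 (psi x - 1 - (-(17 / 4) * x ^ 2 - (21 / 4) * x ^ 3)) := by
  have h := one_sub_ne hx
  obtain ⟨y, hy⟩ : ∃ y : ℚ, y = (1 - x)⁻¹ := ⟨_, rfl⟩
  have hy1 : y * (1 - x) = 1 := by rw [hy]; exact inv_mul_cancel₀ h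
  have hy7 : y ^ 7 * (1 - x) ^ 7 = 1 := by rw [← mul_pow, hy1, one_pow]
  have hyP : PO p 0 y := by rw [hy]; exact inv_one_sub hx
  have hx0 := hx.mono (Nat.zero_le 1)
  have e : psi x - 1 - (-(17 / 4) * x ^ 2 - (21 / 4) * x ^ 3) =
      x ^ 4 * ((-116 + 1124 * x - 3603 * x ^ 2 + 5416 * x ^ 3 - 4231 * x ^ 4 + 1658 * x ^ 5 - 244 * x ^ 6 - 8 * x ^ 7)
        * (y ^ 7 * ((2 : ℚ)⁻¹) ^ 6)) := by
    have e1 : psi x = (1 + x) ^ 2 * (1 - 2 * x) ^ 3 * (1 - x / 2) ^ 6 * y ^ 7 := by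
      unfold psi; rw [hy, div_eq_mul_inv, inv_pow]
    rw [e1]
    linear_combination (1 - (17 / 4) * x ^ 2 - (21 / 4) * x ^ 3) * hy7
  rw [e]
  have hq : PO p 0 (-116 + 1124 * x - 3603 * x ^ 2 + 5416 * x ^ 3 - 4231 * x ^ 4 + 1658 * x ^ 5 - 244 * x ^ 6 - 8 * x ^ 7) := by
    have h1 : ∀ k : ℕ, PO p 0 (x ^ k) := fun k => hx0.pow0 k
    have c1 : PO p 0 (-116 : ℚ) := (of_ofNat 116).neg
    have c2 : PO p 0 (1124 * x) := (of_ofNat 1124).mul0 hx0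
    have c3 : PO p 0 (3603 * x ^ 2) := (of_ofNat 3603).mul0 (h1 2)
    have c4 : PO p 0 (5416 * x ^ 3) := (of_ofNat 5416).mul0 (h1 3)
    have c5 : PO p 0 (4231 * x ^ 4) := (of_ofNat 4231).mul0 (h1 4)
    have c6 : PO p 0 (1658 * x ^ 5) := (of_ofNat 1658).mul0 (h1 5)
    have c7 : PO p 0 (244 * x ^ 6) := (of_ofNat 244).mul0 (h1 6)
    have c8 : PO p 0 (8 * x ^ 7) := (of_ofNat 8).mul0 (h1 7)
    exact ((((((c1.add c2).sub c3).add c4).sub c5).add c6).sub c7).sub c8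
  exact (hx.pow 4).mul0' (hq.mul0 ((hyP.pow0 7).mul0 ((inv_two h2).pow0 6)))

lemma chi_inv_expand {x : ℚ} (hx : PO p 1 x) : PO p 2 ((chi x)⁻¹ - 1 - 3 * x) := by
  have h := one_sub_ne hx
  have h' := one_add_ne hx
  have e : (chi x)⁻¹ - 1 - 3 * x = x ^ 2 * ((5 - 3 * x) * ((1 - x)⁻¹) ^ 2) := by
    unfold chi; field_simp; ring
  rw [e]
  have hx0 := hx.mono (Nat.zero_le 1)
  exact (hx.pow 2).mul0' (((of_ofNat 5).sub ((of_ofNat 3).mul0 hx0)).mul0 ((inv_one_sub hx).pow0 2))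

lemma one_sub_two_ne {x : ℚ} (hx : PO p 1 x) : 1 - 2 * x ≠ 0 := by
  have h : PO p 1 (2 * x) := (of_ofNat 2).mul0 hx
  exact one_sub_ne h

lemma chi_refl {x : ℚ} (hx : PO p 1 x) : chi x * chi (rfl' x) = (1 - x) / ((1 + x) * (1 - 2 * x)) := by
  have h := one_sub_ne hx
  have h' := one_add_ne hx
  have h'' := one_sub_two_ne hx
  have h3 : 1 + rfl' x = (1 - 2 * x) / (1 - x) := by unfold rfl'; field_simp; ring
  have h4 : 1 - rfl' x = 1 / (1 - x) := by unfold rfl'; field_simp; ring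
  unfold chi
  rw [h3, h4]
  field_simp

lemma chi_refl_expand {x : ℚ} (hx : PO p 1 x) : PO p 3 (chi x * chi (rfl' x) - 1 - 2 * x ^ 2) := by
  rw [chi_refl hx]
  have h := one_sub_ne hx
  have h' := one_add_ne hx
  have h'' := one_sub_two_ne hx
  have e : (1 - x) / ((1 + x) * (1 - 2 * x)) - 1 - 2 * x ^ 2 =
      x ^ 3 * ((2 + 4 * x) * ((1 + x)⁻¹ * (1 - 2 * x)⁻¹)) := by
    have hy1 : (1 + x)⁻¹ * (1 + x) = 1 := inv_mul_cancel₀ h'
    have hz1 : (1 - 2 * x)⁻¹ * (1 - 2 * x) = 1 := inv_mul_cancel₀ h''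
    rw [div_eq_mul_inv, mul_inv]
    generalize (1 + x)⁻¹ = y at *
    generalize (1 - 2 * x)⁻¹ = z at *
    have hyz : (y * z) * ((1 + x) * (1 - 2 * x)) = 1 := by
      calc (y * z) * ((1 + x) * (1 - 2 * x)) = (y * (1 + x)) * (z * (1 - 2 * x)) := by ring
        _ = 1 := by rw [hy1, hz1, one_mul]
    linear_combination (1 + 2 * x ^ 2) * hyz
  rw [e]
  have hx0 := hx.mono (Nat.zero_le 1)
  have h2x : PO p 1 (2 * x) := (of_ofNat 2).mul0 hx
  exact (hx.pow 3).mul0' (((of_ofNat 2).add ((of_ofNat 4).mul0 hx0)).mul0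
    ((inv_one_add hx).mul0 (inv_one_sub h2x)))

end expansions

end Pool.Agent.H434R2
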