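import Pool.Agent.H434R2.ElevenC

set_option autoImplicit false
set_option linter.unusedSectionVars false

/-!
Fourth step: relations between the harmonic type sums.
-/

namespace Pool.Agent.H434R2

open PO Finset

/-- `N/(i+1)` with `N = 2n+1`. -/
noncomputable def vv (n i : ℕ) : ℚ := (2 * n + 1) / (i + 1)

lemma vv_refl (n i : ℕ) (hi : i < 2 * n) : vv n (2 * n - 1 - i) = rfl' (vv n i) := by
  unfold vv rfl'
  have h1 : ((2 * n - 1 - i : ℕ) : ℚ) = 2 * n - 1 - i := by
    rw [Nat.cast_sub (by omega), Nat.cast_sub (by omega)]; push_cast; ring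
  rw [h1]
  have h2 : ((i : ℚ) + 1) ≠ 0 := by positivity
  have h3 : (2 * (n : ℚ) - 1 - i + 1) ≠ 0 := by
    have : (i : ℚ) < 2 * n := by exact_mod_cast hi
    intro h; linarith
  have h4 : 1 - (2 * (n : ℚ) + 1) / (i + 1) ≠ 0 := by
    intro h
    rw [sub_eq_zero, eq_div_iff h2] at h
    apply h3; linarith
  field_simp
  have h5 : (i : ℚ) + 1 - (2 * n + 1) ≠ 0 := by
    intro h; apply h3; linarith
  field_simp
  ring

lemma vv_double (n j : ℕ) : vv n (2 * j + 1) = vv n j / 2 := by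
  unfold vv
  have h2 : ((j : ℚ) + 1) ≠ 0 := by positivity
  have h3 : (((2 * j + 1 : ℕ) : ℚ) + 1) = 2 * (j + 1) := by push_cast; ring
  rw [h3]
  field_simp

lemma pair_sum (n : ℕ) (f : ℕ → ℚ) :
    ∑ i ∈ range (2 * n), f i = ∑ i ∈ range n, (f i + f (2 * n - 1 - i)) := by
  rw [two_mul, sum_range_add, sum_add_distrib]
  congr 1
  rw [← sum_range_reflect]
  apply sum_congr rfl
  intro i hi
  have := mem_range.1 hi
  congr 1
  omega

lemma pair_prod (n : ℕ) (f : ℕ → ℚ) :
    ∏ i ∈ range (2 * n), f i = ∏ i ∈ range n, (f i * f (2 * n - 1 - i)) := by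
  rw [two_mul, prod_range_add, prod_mul_distrib]
  congr 1
  rw [← prod_range_reflect]
  apply prod_congr rfl
  intro i hi
  have := mem_range.1 hi
  congr 1
  omega

/-- even/odd splitting -/
lemma eo_sum (n : ℕ) (f : ℕ → ℚ) :
    ∑ i ∈ range (2 * n), f i = ∑ j ∈ range n, f (2 * j + 1) + ∑ j ∈ range n, f (2 * n - 1 - (2 * j + 1)) := by
  have h1 : ∑ i ∈ range (2 * n), f i = ∑ j ∈ range n, f (2 * j + 1) + ∑ j ∈ range n, f (2 * j) := by
    induction n with
    | zero => simp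
    | succ n ih =>
      rw [show 2 * (n + 1) = 2 * n + 1 + 1 by ring, sum_range_succ, sum_range_succ, ih, sum_range_succ,
        sum_range_succ]
      ring
  rw [h1]
  congr 1
  rw [← sum_range_reflect]
  apply sum_congr rfl
  intro j hj
  have := mem_range.1 hj
  congr 1
  omega

lemma sum_refl_range (n : ℕ) (f : ℕ → ℚ) : ∑ i ∈ range n, f (n - 1 - i) = ∑ i ∈ range n, f i :=
  sum_range_reflect f n

lemma tri_if (n : ℕ) (F : ℕ → ℕ → ℚ) :
    ∑ j ∈ range n, ∑ i ∈ range j, F j i = ∑ j ∈ range n, ∑ i ∈ range n, if i < j then F j i else 0 := by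
  apply sum_congr rfl
  intro j hj
  have hj' := mem_range.1 hj
  rw [← sum_filter]
  apply sum_congr _ (fun _ _ => rfl)
  ext i; simp; omega

/-- reversal of a triangular sum -/
lemma tri_reverse (n : ℕ) (F : ℕ → ℕ → ℚ) :
    ∑ j ∈ range n, ∑ i ∈ range j, F (n - 1 - j) (n - 1 - i) = ∑ b ∈ range n, ∑ a ∈ range b, F a b := by
  rw [tri_if n (fun j i => F (n - 1 - j) (n - 1 - i)), tri_if n (fun b a => F a b)]
  rw [← sum_range_reflect]
  have h1 : ∀ j ∈ range n, (∑ i ∈ range n, if i < n - 1 - j then F (n - 1 - (n - 1 - j)) (n - 1 - i) else 0)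
      = ∑ i ∈ range n, if j < i then F j i else 0 := by
    intro j hj
    have hj' := mem_range.1 hj
    rw [← sum_range_reflect (fun i => if j < i then F j i else 0)]
    apply sum_congr rfl
    intro i hi
    have hi' := mem_range.1 hi
    have e1 : n - 1 - (n - 1 - j) = j := by omega
    rw [e1]
    have e2 : (i < n - 1 - j) ↔ (j < n - 1 - i) := by omega
    simp only [e2]
  rw [sum_congr rfl h1, sum_comm]

/-- antidiagonal rearrangement of a triangular sum -/
lemma tri_anti (n : ℕ) (F : ℕ → ℕ → ℚ) :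
    ∑ r ∈ range n, ∑ i ∈ range (n - 1 - r), F r i = ∑ b ∈ range n, ∑ i ∈ range b, F (b - 1 - i) i := by
  induction n with
  | zero => simp
  | succ n ih =>
    rw [sum_range_succ _ n, sum_range_succ _ n, ← ih]
    have h0 : ∑ i ∈ range (n + 1 - 1 - n), F n i = 0 := by simp
    rw [h0, add_zero]
    have h1 : ∑ i ∈ range n, F (n - 1 - i) i = ∑ r ∈ range n, F r (n - 1 - r) := by
      rw [← sum_range_reflect (fun r => F r (n - 1 - r))]
      apply sum_congr rfl
      intro i hi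
      have := mem_range.1 hi
      congr 1
      omega
    rw [h1, ← sum_add_distrib]
    apply sum_congr rfl
    intro r hr
    have hr' := mem_range.1 hr
    have e : n + 1 - 1 - r = (n - 1 - r) + 1 := by omega
    rw [e, sum_range_succ]

section rel

variable {p : ℕ} [hp : Fact p.Prime] {n : ℕ} (hv : ∀ i < 2 * n, PO p 1 (vv n i))

noncomputable def PP (n k : ℕ) : ℚ := ∑ i ∈ range n, vv n i ^ k
noncomputable def QQ (n k : ℕ) : ℚ := ∑ i ∈ range (2 * n), vv n i ^ k
noncomputable def SS (n : ℕ) : ℚ := ∑ b ∈ range (2 * n), vv n b ^ 2 * ∑ a ∈ range b, vv n a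
noncomputable def W12 (n : ℕ) : ℚ := ∑ b ∈ range n, vv n b ^ 2 * ∑ a ∈ range b, vv n a
noncomputable def W21 (n : ℕ) : ℚ := ∑ b ∈ range n, vv n b * ∑ a ∈ range b, vv n a ^ 2
noncomputable def XX (n : ℕ) : ℚ := ∑ r ∈ range n, vv n r ^ 2 * ∑ j ∈ range (r + 1), vv n (n - 1 - j)

include hv

lemma PP_PO (k : ℕ) : PO p k (PP n k) := by
  apply PO.sum
  intro i hi
  have := (hv i (by have := mem_range.1 hi; omega)).pow k
  rwa [one_mul] at this

lemma R1 : PO p 4 (QQ n 2 - (2 * PP n 2 + 2 * PP n 3)) := by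
  have e : QQ n 2 - (2 * PP n 2 + 2 * PP n 3) =
      ∑ i ∈ range n, (rfl' (vv n i) ^ 2 - vv n i ^ 2 - 2 * vv n i ^ 3) := by
    unfold QQ PP
    rw [pair_sum]
    rw [sum_sub_distrib, sum_sub_distrib, sum_add_distrib, ← mul_sum]
    have h1 : ∑ i ∈ range n, vv n (2 * n - 1 - i) ^ 2 = ∑ i ∈ range n, rfl' (vv n i) ^ 2 := by
      apply sum_congr rfl
      intro i hi
      rw [vv_refl n i (by have := mem_range.1 hi; omega)]
    rw [h1]; ring
  rw [e]
  apply PO.sum
  intro i hi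
  exact rfl_sq' (hv i (by have := mem_range.1 hi; omega))

lemma R2 (h2 : p ≠ 2) : PO p 4 (QQ n 2 - ((1 / 2) * PP n 2 + (1 / 4) * PP n 3)) := by
  have e : QQ n 2 - ((1 / 2) * PP n 2 + (1 / 4) * PP n 3) =
      ∑ i ∈ range n, (rfl' (vv n i / 2) ^ 2 - (vv n i / 2) ^ 2 - 2 * (vv n i / 2) ^ 3) := by
    unfold QQ PP
    rw [eo_sum]
    have h1 : ∑ j ∈ range n, vv n (2 * j + 1) ^ 2 = (1 / 4) * ∑ i ∈ range n, vv n i ^ 2 := by
      rw [mul_sum]
      apply sum_congr rfl
      intro i hi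
      rw [vv_double]; ring
    have h2' : ∑ j ∈ range n, vv n (2 * n - 1 - (2 * j + 1)) ^ 2 = ∑ j ∈ range n, rfl' (vv n j / 2) ^ 2 := by
      apply sum_congr rfl
      intro i hi
      rw [vv_refl n _ (by have := mem_range.1 hi; omega), vv_double]
    have h3 : ∑ i ∈ range n, (rfl' (vv n i / 2) ^ 2 - (vv n i / 2) ^ 2 - 2 * (vv n i / 2) ^ 3) =
       ∑ i ∈ range n, rfl' (vv n i / 2) ^ 2 - (1 / 4) * ∑ i ∈ range n, vv n i ^ 2 -
        (1 / 4) * ∑ i ∈ range n, vv n i ^ 3 := by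
      rw [mul_sum, mul_sum, ← sum_sub_distrib, ← sum_sub_distrib]
      apply sum_congr rfl
      intro i _
      ring
    rw [h1, h2', h3]; ring
  rw [e]
  apply PO.sum
  intro i hi
  apply rfl_sq'
  have := hv i (by have := mem_range.1 hi; omega)
  have h := this.mul0' (inv_two h2)
  rwa [← div_eq_mul_inv] at h

lemma R3a : PO p 4 (QQ n 3) := by
  unfold QQ
  rw [pair_sum]
  apply PO.sum
  intro i hi
  have hi' : i < 2 * n := by have := mem_range.1 hi; omega
  rw [vv_refl n i hi', add_comm]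
  exact rfl_cube (hv i hi')

lemma R3b : PO p 2 (QQ n 1) := by
  unfold QQ
  rw [pair_sum]
  apply PO.sum
  intro i hi
  have hi' : i < 2 * n := by have := mem_range.1 hi; omega
  rw [vv_refl n i hi', add_comm, pow_one, pow_one]
  exact rfl_one (hv i hi')

end rel

/-! the binomial identity -/

lemma alt_sum_choose (M : ℕ) : ∑ k ∈ range (M + 1), (-1 : ℚ) ^ k * ((M + 1).choose (k + 1) : ℚ) = 1 := by
  have h := Int.alternating_sum_range_choose_of_ne (n := M + 1) (by omega)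
  rw [sum_range_succ'] at h
  have h2 := congrArg (Int.cast : ℤ → ℚ) h
  push_cast at h2
  have h3 : ∑ k ∈ range (M + 1), (-1 : ℚ) ^ (k + 1) * ((M + 1).choose (k + 1) : ℚ) =
      - ∑ k ∈ range (M + 1), (-1 : ℚ) ^ k * ((M + 1).choose (k + 1) : ℚ) := by
    rw [← sum_neg_distrib]
    apply sum_congr rfl
    intro k _
    ring
  rw [h3] at h2
  simp at h2
  linarith

lemma choose_div (M k : ℕ) : ((M.choose k : ℚ)) / (k + 1) = ((M + 1).choose (k + 1) : ℚ) / (M + 1) := by
  have h := Nat.add_one_mul_choose_eq M k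
  have h2 := congrArg (Nat.cast : ℕ → ℚ) h
  push_cast at h2
  have h3 : ((k : ℚ) + 1) ≠ 0 := by positivity
  have h4 : ((M : ℚ) + 1) ≠ 0 := by positivity
  rw [div_eq_div_iff h3 h4]
  linarith

lemma binom_h1 (M : ℕ) : ∑ k ∈ range M, (-1 : ℚ) ^ k * (M.choose (k + 1) : ℚ) / (k + 1) =
    ∑ k ∈ range M, 1 / ((k : ℚ) + 1) := by
  induction M with
  | zero => simp
  | succ M ih =>
    have h : ∑ k ∈ range (M + 1), (-1 : ℚ) ^ k * ((M + 1).choose (k + 1) : ℚ) / (k + 1) =
      ∑ k ∈ range (M + 1), (-1 : ℚ) ^ k * (M.choose k : ℚ) / (k + 1) +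
      ∑ k ∈ range (M + 1), (-1 : ℚ) ^ k * (M.choose (k + 1) : ℚ) / (k + 1) := by
      rw [← sum_add_distrib]
      apply sum_congr rfl
      intro k _
      rw [Nat.choose_succ_succ' M k]
      push_cast
      ring
    rw [h, sum_range_succ (fun k => (-1 : ℚ) ^ k * (M.choose (k + 1) : ℚ) / (k + 1)), ih,
      sum_range_succ (fun k => 1 / ((k : ℚ) + 1))]
    have h2 : ∑ k ∈ range (M + 1), (-1 : ℚ) ^ k * (M.choose k : ℚ) / (k + 1) = 1 / (M + 1) := by
      have : ∀ k ∈ range (M + 1), (-1 : ℚ) ^ k * (M.choose k : ℚ) / (k + 1) =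
          (-1 : ℚ) ^ k * ((M + 1).choose (k + 1) : ℚ) * (1 / (M + 1)) := by
        intro k _
        rw [mul_div_assoc, choose_div]; ring
      rw [sum_congr rfl this, ← sum_mul, alt_sum_choose, one_mul]
    rw [h2]
    simp
    ring

lemma binom_h2 (M : ℕ) : ∑ k ∈ range M, (-1 : ℚ) ^ k * (M.choose (k + 1) : ℚ) / (k + 1) ^ 2 =
    ∑ k ∈ range M, 1 / ((k : ℚ) + 1) * ∑ j ∈ range (k + 1), 1 / ((j : ℚ) + 1) := by
  induction M with
  | zero => simp
  | succ M ih =>
    have h : ∑ k ∈ range (M + 1), (-1 : ℚ) ^ k * ((M + 1).choose (k + 1) : ℚ) / (k + 1) ^ 2 =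
      ∑ k ∈ range (M + 1), (-1 : ℚ) ^ k * (M.choose k : ℚ) / (k + 1) ^ 2 +
      ∑ k ∈ range (M + 1), (-1 : ℚ) ^ k * (M.choose (k + 1) : ℚ) / (k + 1) ^ 2 := by
      rw [← sum_add_distrib]
      apply sum_congr rfl
      intro k _
      rw [Nat.choose_succ_succ' M k]
      push_cast
      ring
    rw [h, sum_range_succ (fun k => (-1 : ℚ) ^ k * (M.choose (k + 1) : ℚ) / (k + 1) ^ 2), ih,
      sum_range_succ (fun k => 1 / ((k : ℚ) + 1) * ∑ j ∈ range (k + 1), 1 / ((j : ℚ) + 1))]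
    have h2 : ∑ k ∈ range (M + 1), (-1 : ℚ) ^ k * (M.choose k : ℚ) / (k + 1) ^ 2 =
        1 / (M + 1) * ∑ j ∈ range (M + 1), 1 / ((j : ℚ) + 1) := by
      rw [← binom_h1, mul_sum]
      apply sum_congr rfl
      intro k _
      have h3 : ((k : ℚ) + 1) ≠ 0 := by positivity
      have := choose_div M k
      calc (-1 : ℚ) ^ k * (M.choose k : ℚ) / (k + 1) ^ 2 = (-1 : ℚ) ^ k * ((M.choose k : ℚ) / (k + 1)) / (k + 1) := by
            field_simp
        _ = _ := by rw [this]; ring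
    rw [h2]
    simp
    ring

lemma prod_one_sub (n k : ℕ) (hk : k ≤ 2 * n) : ∏ i ∈ range k, (1 - vv n i) = (-1) ^ k * ((2 * n).choose k : ℚ) := by
  induction k with
  | zero => simp
  | succ k ih =>
    rw [prod_range_succ, ih (by omega)]
    have h := Nat.choose_succ_right_eq (2 * n) k
    have h2 := congrArg (Nat.cast : ℕ → ℚ) h
    push_cast at h2
    rw [Nat.cast_sub (by omega)] at h2
    push_cast at h2
    have h3 : ((k : ℚ) + 1) ≠ 0 := by positivity
    have h4 : ((2 * n).choose (k + 1) : ℚ) = ((2 * n).choose k : ℚ) * (2 * n - k) / (k + 1) := by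
      rw [eq_div_iff h3]; linarith
    rw [h4]
    unfold vv
    field_simp
    ring

lemma rfl_trip {p : ℕ} [hp : Fact p.Prime] {x y : ℚ} (hx : PO p 1 x) (hy : PO p 1 y) :
    PO p 4 (rfl' x ^ 2 * rfl' y + x ^ 2 * y) := by
  have e : rfl' x ^ 2 * rfl' y + x ^ 2 * y = (rfl' x ^ 2 - x ^ 2) * rfl' y + x ^ 2 * (rfl' y + y) := by ring
  rw [e]
  have t1 : PO p (3 + 1) ((rfl' x ^ 2 - x ^ 2) * rfl' y) := (rfl_sq hx).mul (rfl_PO hy)
  have t2 : PO p (1 * 2 + 2) (x ^ 2 * (rfl' y + y)) := (hx.pow 2).mul (rfl_one hy)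
  exact PO.add t1 t2

section rel2

variable {p : ℕ} [hp : Fact p.Prime] {n : ℕ} (hv : ∀ i < 2 * n, PO p 1 (vv n i))

/-- exact form of the binomial identity -/
lemma binom_exact (n : ℕ) : - ∑ k ∈ range (2 * n), vv n k ^ 2 * ∏ i ∈ range (k + 1), (1 - vv n i) =
    ∑ k ∈ range (2 * n), vv n k * ∑ j ∈ range (k + 1), vv n j := by
  have h := binom_h2 (2 * n)
  have h2 : ∑ k ∈ range (2 * n), vv n k * ∑ j ∈ range (k + 1), vv n j =
      (2 * n + 1) ^ 2 * ∑ k ∈ range (2 * n), 1 / ((k : ℚ) + 1) * ∑ j ∈ range (k + 1), 1 / ((j : ℚ) + 1) := by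
    rw [mul_sum]
    apply sum_congr rfl
    intro k _
    have : ∑ j ∈ range (k + 1), vv n j = (2 * n + 1) * ∑ j ∈ range (k + 1), 1 / ((j : ℚ) + 1) := by
      rw [mul_sum]
      apply sum_congr rfl
      intro j _
      unfold vv; ring
    rw [this]
    unfold vv
    ring
  rw [h2, ← h, mul_sum, ← sum_neg_distrib]
  apply sum_congr rfl
  intro k hk
  have hk' := mem_range.1 hk
  rw [prod_one_sub n (k + 1) (by omega)]
  unfold vv
  have h3 : ((k : ℚ) + 1) ≠ 0 := by positivity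
  field_simp
  ring

/-- twice the sum over `j ≤ k` -/
lemma sym_sum (M : ℕ) (f : ℕ → ℚ) : 2 * ∑ k ∈ range M, f k * ∑ j ∈ range (k + 1), f j =
    (∑ k ∈ range M, f k) ^ 2 + ∑ k ∈ range M, f k ^ 2 := by
  induction M with
  | zero => simp
  | succ M ih =>
    rw [sum_range_succ, mul_add, ih, sum_range_succ _ M, sum_range_succ _ M]
    ring

include hv

lemma R3 (h2 : p ≠ 2) : PO p 4 ((3 / 2) * QQ n 2 - SS n) := by
  have h := binom_exact n
  have hs := sym_sum (2 * n) (fun k => vv n k)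
  -- expansion of the products
  have h3 : PO p 4 (∑ k ∈ range (2 * n), vv n k ^ 2 * ∏ i ∈ range (k + 1), (1 - vv n i)
      - ∑ k ∈ range (2 * n), vv n k ^ 2 * (1 - ∑ i ∈ range (k + 1), vv n i)) := by
    apply PO.sum_sub
    intro k hk
    have hk' := mem_range.1 hk
    have h4 := (prod_expand (p := p) (k := 2) (l := 1) (by norm_num) (range (k + 1))
      (fun i => 1 - vv n i) (fun i => - vv n i)
      (by
        intro i hi
        have : (1 - vv n i) - 1 - (- vv n i) = 0 := by ring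
        rw [this]; exact PO.zero 2)
      (by
        intro i hi
        have hi' := mem_range.1 hi
        exact (hv i (by omega)).neg)).1
    rw [sum_neg_distrib] at h4
    have e : vv n k ^ 2 * ∏ i ∈ range (k + 1), (1 - vv n i) - vv n k ^ 2 * (1 - ∑ i ∈ range (k + 1), vv n i)
       = vv n k ^ 2 * (∏ i ∈ range (k + 1), (1 - vv n i) - 1 - -∑ i ∈ range (k + 1), vv n i) := by ring
    rw [e]
    exact ((hv k hk').pow 2).mul h4
  have h5 : ∑ k ∈ range (2 * n), vv n k ^ 2 * (1 - ∑ i ∈ range (k + 1), vv n i) = QQ n 2 - SS n - QQ n 3 := by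
    unfold QQ SS
    rw [← sum_sub_distrib, ← sum_sub_distrib]
    apply sum_congr rfl
    intro k _
    rw [sum_range_succ]; ring
  have hq1 : PO p 4 (QQ n 1 ^ 2) := (R3b hv).pow 2
  have hq3 := R3a hv
  have e1 : QQ n 1 = ∑ k ∈ range (2 * n), vv n k := by unfold QQ; simp
  have e2 : QQ n 2 = ∑ k ∈ range (2 * n), vv n k ^ 2 := rfl
  rw [h5] at h3
  rw [← h, ← e1, ← e2] at hs
  have key : (3 / 2) * QQ n 2 - SS n =
      -(∑ k ∈ range (2 * n), vv n k ^ 2 * ∏ i ∈ range (k + 1), (1 - vv n i) - (QQ n 2 - SS n - QQ n 3))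
        - (1 / 2) * QQ n 1 ^ 2 + QQ n 3 := by
    linear_combination (-1 / 2) * hs
  rw [key]
  exact (h3.neg.sub ((half h2).mul0 hq1)).add hq3

/-- splitting of the full sum -/
lemma R4 : PO p 4 (SS n - (W12 n - W21 n + PP n 1 * PP n 2)) := by
  -- exact splitting
  have e1 : SS n = W12 n + ∑ j ∈ range n, vv n (n + j) ^ 2 * (PP n 1 + ∑ i ∈ range j, vv n (n + i)) := by
    unfold SS W12 PP
    rw [two_mul, sum_range_add]
    congr 1
    apply sum_congr rfl
    intro j _
    rw [sum_range_add]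
    simp
  have hr : ∀ j < n, vv n (n + j) = rfl' (vv n (n - 1 - j)) := by
    intro j hj
    rw [← vv_refl n (n - 1 - j) (by omega)]
    congr 1
    omega
  have hw : ∀ j < n, PO p 1 (vv n (n - 1 - j)) := fun j hj => hv _ (by omega)
  -- second part
  have h2 : PO p 4 ((∑ j ∈ range n, vv n (n + j) ^ 2 - PP n 2) * PP n 1) := by
    have h1 : PO p 3 (∑ j ∈ range n, vv n (n + j) ^ 2 - PP n 2) := by
      have : PP n 2 = ∑ j ∈ range n, vv n (n - 1 - j) ^ 2 := by
        unfold PP; rw [sum_refl_range n (fun i => vv n i ^ 2)]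
      rw [this]
      apply PO.sum_sub
      intro j hj
      have hj' := mem_range.1 hj
      rw [hr j hj']
      exact rfl_sq (hw j hj')
    exact h1.mul (PP_PO hv 1)
  -- third part
  have h3 : PO p 4 (∑ j ∈ range n, vv n (n + j) ^ 2 * ∑ i ∈ range j, vv n (n + i) + W21 n) := by
    have e3 : W21 n = ∑ j ∈ range n, ∑ i ∈ range j, vv n (n - 1 - j) ^ 2 * vv n (n - 1 - i) := by
      rw [tri_reverse n (fun a b => vv n a ^ 2 * vv n b)]
      unfold W21
      apply sum_congr rfl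
      intro b _
      rw [mul_sum]
      apply sum_congr rfl
      intro a _
      ring
    rw [e3, ← sum_add_distrib]
    apply PO.sum
    intro j hj
    have hj' := mem_range.1 hj
    rw [mul_sum, ← sum_add_distrib]
    apply PO.sum
    intro i hi
    have hi' := mem_range.1 hi
    rw [hr j hj', hr i (by omega)]
    exact rfl_trip (hw j hj') (hw i (by omega))
  have key : SS n - (W12 n - W21 n + PP n 1 * PP n 2) =
      (∑ j ∈ range n, vv n (n + j) ^ 2 - PP n 2) * PP n 1 +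
      (∑ j ∈ range n, vv n (n + j) ^ 2 * ∑ i ∈ range j, vv n (n + i) + W21 n) := by
    rw [e1]
    have : ∑ j ∈ range n, vv n (n + j) ^ 2 * (PP n 1 + ∑ i ∈ range j, vv n (n + i)) =
      (∑ j ∈ range n, vv n (n + j) ^ 2) * PP n 1 + ∑ j ∈ range n, vv n (n + j) ^ 2 * ∑ i ∈ range j, vv n (n + i) := by
      rw [sum_mul, ← sum_add_distrib]
      apply sum_congr rfl
      intro j _
      ring
    rw [this]; ring
  rw [key]
  exact h2.add h3

end rel2

lemma R5' (M : ℕ) (f : ℕ → ℚ) : (∑ i ∈ range M, f i) * (∑ i ∈ range M, f i ^ 2) =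
    ∑ b ∈ range M, f b ^ 2 * ∑ a ∈ range b, f a + ∑ b ∈ range M, f b * ∑ a ∈ range b, f a ^ 2 +
      ∑ i ∈ range M, f i ^ 3 := by
  induction M with
  | zero => simp
  | succ M ih =>
    simp only [sum_range_succ]
    linear_combination ih

lemma R5 (n : ℕ) : PP n 1 * PP n 2 = W12 n + W21 n + PP n 3 := by
  have := R5' n (vv n)
  unfold PP W12 W21
  simp only [pow_one]
  exact this

lemma vv_partial (n b i : ℕ) (hi : i < b) : vv n (b - 1 - i) * vv n i = vv n b * (vv n i + vv n (b - 1 - i)) := by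
  unfold vv
  have h1 : ((b - 1 - i : ℕ) : ℚ) = b - 1 - i := by
    rw [Nat.cast_sub (by omega), Nat.cast_sub (by omega)]; push_cast; ring
  rw [h1]
  have h2 : ((i : ℚ) + 1) ≠ 0 := by positivity
  have h3 : ((b : ℚ) + 1) ≠ 0 := by positivity
  have h4 : ((b : ℚ) - 1 - i + 1) ≠ 0 := by
    have : (i : ℚ) < b := by exact_mod_cast hi
    intro h; linarith
  field_simp
  ring

lemma R6a (n : ℕ) : ∑ r ∈ range n, ∑ i ∈ range (n - 1 - r), vv n r ^ 2 * vv n i = 2 * W12 n + W21 n := by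
  rw [tri_anti n (fun r i => vv n r ^ 2 * vv n i)]
  unfold W12 W21
  rw [mul_sum, ← sum_add_distrib]
  apply sum_congr rfl
  intro b _
  have h1 : ∀ i ∈ range b, vv n (b - 1 - i) ^ 2 * vv n i = vv n b ^ 2 * vv n i + vv n b ^ 2 * vv n (b - 1 - i)
      + vv n b * vv n (b - 1 - i) ^ 2 := by
    intro i hi
    have h := vv_partial n b i (mem_range.1 hi)
    calc vv n (b - 1 - i) ^ 2 * vv n i = vv n (b - 1 - i) * (vv n (b - 1 - i) * vv n i) := by ring
      _ = vv n (b - 1 - i) * (vv n b * (vv n i + vv n (b - 1 - i))) := by rw [h]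
      _ = vv n b * (vv n (b - 1 - i) * vv n i) + vv n b * vv n (b - 1 - i) ^ 2 := by ring
      _ = vv n b * (vv n b * (vv n i + vv n (b - 1 - i))) + vv n b * vv n (b - 1 - i) ^ 2 := by rw [h]
      _ = _ := by ring
  rw [sum_congr rfl h1, sum_add_distrib, sum_add_distrib]
  rw [sum_refl_range b (fun i => vv n b ^ 2 * vv n i), sum_refl_range b (fun i => vv n b * vv n i ^ 2)]
  rw [← mul_sum, ← mul_sum]
  ring

lemma R6b (n : ℕ) : PP n 1 * PP n 2 = XX n + ∑ r ∈ range n, ∑ i ∈ range (n - 1 - r), vv n r ^ 2 * vv n i := by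
  unfold PP XX
  rw [mul_comm, sum_mul, ← sum_add_distrib]
  apply sum_congr rfl
  intro r hr
  have hr' := mem_range.1 hr
  rw [← mul_sum, ← mul_add]
  congr 1
  simp only [pow_one]
  have hsplit : ∑ i ∈ range n, vv n i = ∑ i ∈ range (n - 1 - r), vv n i +
      ∑ x ∈ range (r + 1), vv n (n - 1 - r + x) := by
    rw [← sum_range_add]
    congr 2
    omega
  rw [hsplit, add_comm]
  congr 1
  rw [← sum_range_reflect]
  apply sum_congr rfl
  intro j hj
  have hj' := mem_range.1 hj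
  congr 1
  omega

/-- `X = P₃ - W₁₂`. -/
lemma XX_eq (n : ℕ) : XX n = PP n 3 - W12 n := by
  have h5 := R5 n
  have h6a := R6a n
  have h6b := R6b n
  linarith

/-- the second triangular sum equals the first one. -/
lemma YY_eq (n : ℕ) : ∑ r ∈ range n, vv n r * ∑ j ∈ range (r + 1), vv n (n - 1 - j) ^ 2 = XX n := by
  have gen : ∀ F : ℕ → ℕ → ℚ, ∑ r ∈ range n, ∑ j ∈ range (r + 1), F r (n - 1 - j) =
      ∑ r ∈ range n, ∑ i ∈ range n, if n - 1 ≤ r + i then F r i else 0 := by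
    intro F
    apply sum_congr rfl
    intro r hr
    have hr' := mem_range.1 hr
    rw [← sum_refl_range n (fun i => if n - 1 ≤ r + i then F r i else 0)]
    have : ∀ i ∈ range n, (if n - 1 ≤ r + (n - 1 - i) then F r (n - 1 - i) else 0) =
        if i < r + 1 then F r (n - 1 - i) else 0 := by
      intro i hi
      have hi' := mem_range.1 hi
      have e : (n - 1 ≤ r + (n - 1 - i)) ↔ (i < r + 1) := by omega
      simp only [e]
    rw [sum_congr rfl this, ← sum_filter]
    apply sum_congr _ (fun _ _ => rfl)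
    ext i; simp; omega
  unfold XX
  simp only [mul_sum]
  rw [gen (fun r i => vv n r * vv n i ^ 2), gen (fun r i => vv n r ^ 2 * vv n i), sum_comm]
  apply sum_congr rfl
  intro r _
  apply sum_congr rfl
  intro i _
  have e : (n - 1 ≤ i + r) ↔ (n - 1 ≤ r + i) := by rw [add_comm]
  simp only [e]
  split_ifs
  · ring
  · rfl

section final

variable {p : ℕ} [hp : Fact p.Prime] {n : ℕ} (hv : ∀ i < 2 * n, PO p 1 (vv n i)) (h2 : p ≠ 2)

include hv h2

lemma three_P2 : PO p 4 (3 * PP n 2 + (7 / 2) * PP n 3) := by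
  have h1 := R1 hv
  have h3 := R2 hv h2
  have e : 3 * PP n 2 + (7 / 2) * PP n 3 =
      2 * (QQ n 2 - ((1 / 2) * PP n 2 + (1 / 4) * PP n 3)) - 2 * (QQ n 2 - (2 * PP n 2 + 2 * PP n 3)) := by ring
  rw [e]
  exact ((of_ofNat 2).mul0 h3).sub ((of_ofNat 2).mul0 h1)

lemma SS_P3 : PO p 4 (SS n + (1 / 2) * PP n 3) := by
  have h1 := R1 hv
  have h3 := R3 hv h2
  have h4 := three_P2 hv h2
  have e : SS n + (1 / 2) * PP n 3 = -((3 / 2) * QQ n 2 - SS n) +
      3 * (1 / 2) * (QQ n 2 - (2 * PP n 2 + 2 * PP n 3)) + (3 * PP n 2 + (7 / 2) * PP n 3) := by ring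
  rw [e]
  exact (h3.neg.add (((of_ofNat 3).mul0 (half h2)).mul0 h1)).add h4

lemma XX_P3 : PO p 4 (XX n - (7 / 4) * PP n 3) := by
  have h1 := R4 hv
  have h3 := SS_P3 hv h2
  have h5 := R5 n
  have h6 := XX_eq n
  -- S = 2 W12 + P3 mod, X = P3 - W12
  have e : XX n - (7 / 4) * PP n 3 = (1 / 2) * (SS n - (W12 n - W21 n + PP n 1 * PP n 2)) -
      (1 / 2) * (SS n + (1 / 2) * PP n 3) := by
    rw [h6, h5]; ring
  rw [e]
  exact ((half h2).mul0 h1).sub ((half h2).mul0 h3)

end final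

end Pool.Agent.H434R2
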