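import Pool.Agent.H434R2.ElevenB
import Pool.Agent.H434R2.ElevenD

set_option autoImplicit false
set_option linter.unusedSectionVars false

/-!
Fifth step: evaluation of the sum modulo `p^4`.
-/

namespace Pool.Agent.H434R2

open PO Finset

/-- the normalised sum, `N = 2n+1` -/
noncomputable def TT (n : ℕ) : ℚ :=
  (1 / (2 * n + 1)) * ∑ k ∈ range (2 * n + 1), (11 * (k : ℚ) + 3) * Eleven.tt k

noncomputable def cc (n m : ℕ) : ℚ := ∏ i ∈ range m, chi (vv n i)

lemma vv_pos (n i : ℕ) : 0 < vv n i := by unfold vv; positivity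

lemma one_sub_vv_ne (n i : ℕ) (hi : i < 2 * n) : 1 - vv n i ≠ 0 := by
  unfold vv
  have h2 : ((i : ℚ) + 1) ≠ 0 := by positivity
  have h3 : (i : ℚ) < 2 * n := by exact_mod_cast hi
  intro h
  rw [sub_eq_zero, eq_div_iff h2] at h
  linarith

lemma one_sub_half_ne (n i : ℕ) : 1 - vv n i / 2 ≠ 0 := by
  unfold vv
  have h2 : ((i : ℚ) + 1) ≠ 0 := by positivity
  intro h
  field_simp at h
  have h3 : (2 * (i + 1) : ℤ) - (2 * n + 1) = 0 := by
    have : (2 * ((i : ℚ) + 1)) - (2 * n + 1) = 0 := by linarith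
    exact_mod_cast this
  omega

lemma cc_ne (n m : ℕ) (hm : m ≤ 2 * n) : cc n m ≠ 0 := by
  unfold cc
  rw [prod_ne_zero_iff]
  intro i hi
  have hi' := mem_range.1 hi
  unfold chi
  have h1 := one_sub_vv_ne n i (by omega)
  have h2 := vv_pos n i
  positivity

lemma choose_cc (n m : ℕ) (hm : m ≤ 2 * n) :
    ((2 * n).choose m : ℚ) * ((2 * (2 * n) + 1).choose (2 * n + 1 + m) : ℚ) =
      ((2 * (2 * n) + 1).choose (2 * n + 1) : ℚ) * cc n m := by
  induction m with
  | zero => simp [cc]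
  | succ m ih =>
    have ih := ih (by omega)
    have h1 := congrArg (Nat.cast : ℕ → ℚ) (Nat.choose_succ_right_eq (2 * n) m)
    have h2 := congrArg (Nat.cast : ℕ → ℚ) (Nat.choose_succ_right_eq (2 * (2 * n) + 1) (2 * n + 1 + m))
    have e : 2 * (2 * n) + 1 - (2 * n + 1 + m) = 2 * n - m := by omega
    rw [e] at h2
    push_cast at h1 h2
    rw [Nat.cast_sub (by omega)] at h1 h2
    push_cast at h1 h2
    have hc : cc n (m + 1) = cc n m * chi (vv n m) := by unfold cc; rw [prod_range_succ]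
    have hchi : chi (vv n m) = (2 * n - m) ^ 2 / ((m + 1) * (2 * n + 1 + m + 1)) := by
      unfold chi vv
      have h3 : ((m : ℚ) + 1) ≠ 0 := by positivity
      have h4 : ((m : ℚ) + 1 + (2 * n + 1)) ≠ 0 := by positivity
      have h5 : (2 * (n : ℚ) + 1 + m + 1) ≠ 0 := by positivity
      field_simp
      ring
    have h3 : ((m : ℚ) + 1) ≠ 0 := by positivity
    have h5 : (2 * (n : ℚ) + 1 + m + 1) ≠ 0 := by positivity
    have h1' : ((2 * n).choose (m + 1) : ℚ) = ((2 * n).choose m : ℚ) * (2 * n - m) / (m + 1) := by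
      rw [eq_div_iff h3]; linarith
    have e2 : 2 * n + 1 + (m + 1) = 2 * n + 1 + m + 1 := by ring
    have h2' : ((2 * (2 * n) + 1).choose (2 * n + 1 + (m + 1)) : ℚ) =
        ((2 * (2 * n) + 1).choose (2 * n + 1 + m) : ℚ) * (2 * n - m) / (2 * n + 1 + m + 1) := by
      rw [e2, eq_div_iff h5]; linarith
    rw [hc, hchi, h1', h2']
    have : ((2 * n).choose m : ℚ) * (2 * n - m) / (m + 1) * (((2 * (2 * n) + 1).choose (2 * n + 1 + m) : ℚ) * (2 * n - m) / (2 * n + 1 + m + 1))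
      = (((2 * n).choose m : ℚ) * ((2 * (2 * n) + 1).choose (2 * n + 1 + m) : ℚ)) * ((2 * n - m) ^ 2 / ((m + 1) * (2 * n + 1 + m + 1))) := by
      field_simp
    rw [this, ih]
    ring

lemma prod_choose (N k : ℕ) : ∏ i ∈ range k, (((N : ℚ) + i + 1) / (i + 1)) = ((N + k).choose k : ℚ) := by
  induction k with
  | zero => simp
  | succ k ih =>
    rw [prod_range_succ, ih]
    have h := congrArg (Nat.cast : ℕ → ℚ) (Nat.add_one_mul_choose_eq (N + k) k)
    push_cast at h
    have h3 : ((k : ℚ) + 1) ≠ 0 := by positivity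
    rw [← mul_div_assoc, div_eq_iff h3]
    rw [show N + (k + 1) = N + k + 1 by ring]
    linarith

lemma B_prod (n : ℕ) : ((2 * (2 * n) + 1).choose (2 * n + 1) : ℚ) = ∏ i ∈ range (2 * n), (1 + vv n i) := by
  have h := prod_choose (2 * n + 1) (2 * n)
  have e : (2 * n + 1 + 2 * n).choose (2 * n) = (2 * (2 * n) + 1).choose (2 * n + 1) := by
    rw [show 2 * n + 1 + 2 * n = 2 * (2 * n) + 1 by ring, ← Nat.choose_symm (by omega : 2 * n ≤ 2 * (2 * n) + 1)]
    congr 1; omega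
  rw [e] at h
  rw [← h]
  apply prod_congr rfl
  intro i _
  unfold vv
  have h3 : ((i : ℚ) + 1) ≠ 0 := by positivity
  push_cast
  field_simp
  ring

lemma four_prod (n : ℕ) : (4 : ℚ) ^ n = ∏ i ∈ range n, ((1 - vv n i) / (1 - vv n i / 2)) := by
  have h1 : ∏ i ∈ range n, ((1 - vv n i) / (1 - vv n i / 2)) = ∏ i ∈ range n, (2 * ((n : ℚ) + i + 1) / (2 * i + 1)) := by
    rw [← prod_range_reflect (fun i => (2 * ((n : ℚ) + i + 1) / (2 * i + 1)))]
    apply prod_congr rfl
    intro i hi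
    have hi' := mem_range.1 hi
    have e : ((n - 1 - i : ℕ) : ℚ) = n - 1 - i := by
      rw [Nat.cast_sub (by omega), Nat.cast_sub (by omega)]; push_cast; ring
    rw [e]
    have h2 := one_sub_half_ne n i
    have h3 : (2 * ((n : ℚ) - 1 - i) + 1) ≠ 0 := by
      intro h
      have : (2 * ((n : ℤ) - 1 - i) + 1) = 0 := by exact_mod_cast h
      omega
    rw [div_eq_div_iff h2 h3]
    unfold vv
    have h4 : ((i : ℚ) + 1) ≠ 0 := by positivity
    field_simp
    ring
  rw [h1]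
  have h2 := prod_choose n n
  have h3 := Eleven.asc_prod n
  have h4 := Eleven.asc_half n
  rw [h3] at h4
  have e2 : n + n = 2 * n := by ring
  rw [e2] at h2
  have hf : (n.factorial : ℚ) = ∏ i ∈ range n, ((i : ℚ) + 1) := by
    rw [← Finset.prod_range_add_one_eq_factorial]; push_cast; rfl
  rw [hf, ← h2, ← prod_div_distrib] at h4
  have h5 : (∏ i ∈ range n, ((1 / 2 + (i : ℚ)) / (i + 1))) * 4 ^ n = ∏ i ∈ range n, (((n : ℚ) + i + 1) / (i + 1)) := by
    rw [h4]; field_simp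
  have h6 : (∏ i ∈ range n, (2 * ((n : ℚ) + i + 1) / (2 * i + 1))) * (∏ i ∈ range n, ((1 / 2 + (i : ℚ)) / (i + 1))) =
      ∏ i ∈ range n, (((n : ℚ) + i + 1) / (i + 1)) := by
    rw [← prod_mul_distrib]
    apply prod_congr rfl
    intro i _
    have h7 : ((i : ℚ) + 1) ≠ 0 := by positivity
    have h8 : (2 * (i : ℚ) + 1) ≠ 0 := by positivity
    field_simp
    ring
  have h9 : ∏ i ∈ range n, ((1 / 2 + (i : ℚ)) / (i + 1)) ≠ 0 := by
    rw [prod_ne_zero_iff]
    intro i _
    positivity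
  apply mul_right_cancel₀ h9
  rw [h6, ← h5]; ring

noncomputable def VV (n : ℕ) : ℚ := ∑ m ∈ range (2 * n + 1), ((2 * n + 1 : ℚ) / (2 * m + 1)) * (cc n m / cc n n)

lemma T_eq1 (n : ℕ) : TT n = 3 * (((2 * (2 * n) + 1).choose (2 * n + 1) : ℚ) ^ 3 * cc n n / (4 ^ n) ^ 6) * VV n := by
  unfold TT
  rw [Eleven.second_form (2 * n)]
  have hB : ((2 * (2 * n + 1)).choose (2 * n + 1) : ℚ) = 2 * ((2 * (2 * n) + 1).choose (2 * n + 1) : ℚ) := by
    have h1 : 2 * (2 * n + 1) = 2 * (2 * n) + 1 + 1 := by ring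
    rw [h1, Nat.choose_succ_succ']
    have : (2 * (2 * n) + 1).choose (2 * n) = (2 * (2 * n) + 1).choose (2 * n + 1) := by
      rw [← Nat.choose_symm (by omega : 2 * n ≤ 2 * (2 * n) + 1)]
      congr 1; omega
    rw [this]; push_cast; ring
  rw [hB]
  have h1 : ∑ m ∈ range (2 * n + 1), ((2 * n).choose m : ℚ) * ((2 * (2 * n) + 1).choose (2 * n + 1 + m) : ℚ) / (2 * m + 1)
      = ((2 * (2 * n) + 1).choose (2 * n + 1) : ℚ) * cc n n / (2 * n + 1) * VV n := by
    unfold VV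
    rw [mul_sum]
    apply sum_congr rfl
    intro m hm
    have hm' := mem_range.1 hm
    rw [choose_cc n m (by omega)]
    have h2 := cc_ne n n (by omega)
    have h3 : (2 * (m : ℚ) + 1) ≠ 0 := by positivity
    have h4 : (2 * (n : ℚ) + 1) ≠ 0 := by positivity
    field_simp
  rw [h1]
  have h4 : (2 * (n : ℚ) + 1) ≠ 0 := by positivity
  have e : (64 : ℚ) ^ (2 * n + 1) = 64 * (4 ^ n) ^ 6 := by
    rw [pow_succ, ← pow_mul, show (64 : ℚ) = 4 ^ 3 by norm_num, ← pow_mul]
    ring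
  rw [e]
  generalize ((2 * (2 * n) + 1).choose (2 * n + 1) : ℚ) = B
  generalize cc n n = c
  generalize VV n = V
  have h5 : ((4 : ℚ) ^ n) ≠ 0 := by positivity
  generalize (4 : ℚ) ^ n = F at *
  push_cast
  field_simp
  ring

lemma T_eq2 (n : ℕ) : TT n = 3 * (∏ i ∈ range n, psi (vv n i)) * VV n := by
  rw [T_eq1]
  congr 2
  rw [B_prod, pair_prod, four_prod, cc, ← prod_pow, ← prod_pow, ← prod_mul_distrib, ← prod_div_distrib]
  apply prod_congr rfl
  intro i hi
  have hi' := mem_range.1 hi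
  rw [vv_refl n i (by omega)]
  have h1 := one_sub_vv_ne n i (by omega)
  have h2 := one_sub_half_ne n i
  have h3 := (vv_pos n i)
  generalize vv n i = x at *
  have h4 : 1 + x ≠ 0 := by positivity
  have h5 : 1 + rfl' x = (1 - 2 * x) / (1 - x) := by unfold rfl'; field_simp; ring
  rw [h5]
  unfold chi psi
  generalize hy : 1 - x / 2 = y at *
  generalize hz : 1 - 2 * x = z at *
  field_simp

end Pool.Agent.H434R2
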