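import Pool.Agent.H434R2.ElevenE

set_option autoImplicit false
set_option linter.unusedSectionVars false

/-!
Sixth step: the sum `V` modulo `p^4` and the final evaluation.
-/

namespace Pool.Agent.H434R2

open PO Finset

lemma VV_split (n : ℕ) (g : ℕ → ℚ) :
    ∑ m ∈ range (2 * n + 1), g m = g n + ∑ r ∈ range n, (g (n - 1 - r) + g (n + 1 + r)) := by
  rw [show 2 * n + 1 = n + 1 + n by ring, sum_range_add, sum_range_succ, sum_add_distrib, sum_refl_range n g]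
  ring

/-- abbreviation for the reversed sequence -/
noncomputable def ww (n j : ℕ) : ℚ := vv n (n - 1 - j)

lemma cc_low (n r : ℕ) (hr : r < n) : cc n n = cc n (n - 1 - r) * ∏ j ∈ range (r + 1), chi (ww n j) := by
  unfold cc
  have h : ∏ i ∈ range n, chi (vv n i) = (∏ i ∈ range (n - 1 - r), chi (vv n i)) *
      ∏ x ∈ range (r + 1), chi (vv n (n - 1 - r + x)) := by
    rw [← prod_range_add]
    congr 2
    omega
  rw [h]
  congr 1
  rw [← prod_range_reflect]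
  apply prod_congr rfl
  intro j hj
  have hj' := mem_range.1 hj
  unfold ww
  congr 2
  omega

lemma cc_high (n r : ℕ) (hr : r < n) : cc n (n + 1 + r) = cc n n * ∏ j ∈ range (r + 1), chi (rfl' (ww n j)) := by
  unfold cc
  rw [show n + 1 + r = n + (r + 1) by ring, prod_range_add]
  congr 1
  apply prod_congr rfl
  intro j hj
  have hj' := mem_range.1 hj
  unfold ww
  rw [← vv_refl n (n - 1 - j) (by omega)]
  congr 2
  omega

lemma half_low (n r : ℕ) (hr : r < n) :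
    (2 * n + 1 : ℚ) / (2 * ((n - 1 - r : ℕ) : ℚ) + 1) = -(vv n r / 2) / (1 - vv n r / 2) := by
  have e : ((n - 1 - r : ℕ) : ℚ) = n - 1 - r := by
    rw [Nat.cast_sub (by omega), Nat.cast_sub (by omega)]; push_cast; ring
  rw [e]
  have h2 := one_sub_half_ne n r
  have h3 : (2 * ((n : ℚ) - 1 - r) + 1) ≠ 0 := by
    intro h
    have : (2 * ((n : ℤ) - 1 - r) + 1) = 0 := by exact_mod_cast h
    omega
  rw [div_eq_div_iff h3 h2]
  unfold vv
  have h4 : ((r : ℚ) + 1) ≠ 0 := by positivity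
  field_simp
  ring

lemma half_high (n r : ℕ) :
    (2 * n + 1 : ℚ) / (2 * ((n + 1 + r : ℕ) : ℚ) + 1) = (vv n r / 2) / (1 + vv n r / 2) := by
  have h2 : 1 + vv n r / 2 ≠ 0 := by have := vv_pos n r; positivity
  have h3 : (2 * ((n + 1 + r : ℕ) : ℚ) + 1) ≠ 0 := by positivity
  rw [div_eq_div_iff h3 h2]
  unfold vv
  have h4 : ((r : ℚ) + 1) ≠ 0 := by positivity
  push_cast
  field_simp
  ring

/-- the algebraic heart: expansion of one pair of terms -/
lemma term_expand {p : ℕ} [hp : Fact p.Prime] {e A R τ σ : ℚ} (he : PO p 1 e)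
    (hA : PO p 2 (A - 1 - 3 * τ)) (hR : PO p 3 (R - 1 - 2 * σ)) (hτ : PO p 1 τ) (hσ : PO p 2 σ) :
    PO p 4 (-e / (1 - e) * A + e / (1 + e) * (A * R) - (-2 * e ^ 2 - 6 * e ^ 2 * τ + 2 * e * σ)) := by
  have h1 := one_sub_ne he
  have h2 := one_add_ne he
  obtain ⟨y, hy⟩ : ∃ y : ℚ, y = (1 - e)⁻¹ := ⟨_, rfl⟩
  obtain ⟨z, hz⟩ : ∃ z : ℚ, z = (1 + e)⁻¹ := ⟨_, rfl⟩
  have hy1 : y * (1 - e) = 1 := by rw [hy]; exact inv_mul_cancel₀ h1
  have hz1 : z * (1 + e) = 1 := by rw [hz]; exact inv_mul_cancel₀ h2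
  have hyP : PO p 0 y := by rw [hy]; exact inv_one_sub he
  have hzP : PO p 0 z := by rw [hz]; exact inv_one_add he
  have e1 : -e / (1 - e) = -e * y := by rw [hy, div_eq_mul_inv]
  have e2 : e / (1 + e) = e * z := by rw [hz, div_eq_mul_inv]
  obtain ⟨a, ha⟩ : ∃ a : ℚ, a = A - 1 - 3 * τ := ⟨_, rfl⟩
  obtain ⟨b, hb⟩ : ∃ b : ℚ, b = R - 1 - 2 * σ := ⟨_, rfl⟩
  rw [← ha] at hA
  rw [← hb] at hR
  have eA : A = 1 + 3 * τ + a := by rw [ha]; ring
  have eR : R = 1 + 2 * σ + b := by rw [hb]; ring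
  have he0 := he.mono (Nat.zero_le 1)
  have hA0 : PO p 0 A := by
    rw [eA]
    exact (one.add ((of_ofNat 3).mul0 (hτ.mono (Nat.zero_le 1)))).add (hA.mono (Nat.zero_le 2))
  -- epsilon
  have hε : PO p 4 (-2 * (y * z) * e ^ 4 - 2 * z * (σ * e ^ 2) + z * (b * e)) := by
    have t1 : PO p 4 (-2 * (y * z) * e ^ 4) := by
      have := he.pow 4
      rw [one_mul] at this
      exact ((of_ofNat 2).neg.mul0 (hyP.mul0 hzP)).mul0 this
    have t2 : PO p 4 (2 * z * (σ * e ^ 2)) := by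
      have h3 : PO p (2 + 1 * 2) (σ * e ^ 2) := hσ.mul (he.pow 2)
      exact ((of_ofNat 2).mul0 hzP).mul0 h3
    have t3 : PO p 4 (z * (b * e)) := by
      have h3 : PO p (3 + 1) (b * e) := hR.mul he
      exact hzP.mul0 h3
    exact (t1.sub t2).add t3
  have key : -e / (1 - e) * A + e / (1 + e) * (A * R) - (-2 * e ^ 2 - 6 * e ^ 2 * τ + 2 * e * σ) =
      6 * (τ * (e * σ)) + a * (-2 * e ^ 2 + 2 * (e * σ)) +
        A * (-2 * (y * z) * e ^ 4 - 2 * z * (σ * e ^ 2) + z * (b * e)) := by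
    rw [e1, e2]
    have f1 : -e * y + e * z * R = -2 * e ^ 2 + 2 * e * σ + (-2 * (y * z) * e ^ 4 - 2 * z * (σ * e ^ 2) + z * (b * e)) := by
      rw [eR]
      have hyz : (y * z) * ((1 - e) * (1 + e)) = 1 := by
        calc (y * z) * ((1 - e) * (1 + e)) = (y * (1 - e)) * (z * (1 + e)) := by ring
          _ = 1 := by rw [hy1, hz1, one_mul]
      -- y = yz(1+e), z = yz(1-e)
      have hy2 : y = (y * z) * (1 + e) := by
        calc y = y * (z * (1 + e)) := by rw [hz1, mul_one]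
          _ = _ := by ring
      have hz2 : z = (y * z) * (1 - e) := by
        calc z = z * (y * (1 - e)) := by rw [hy1, mul_one]
          _ = _ := by ring
      linear_combination (-e) * hy2 + e * hz2 + (-2 * e ^ 2) * hyz + (2 * e * σ) * hz1
    calc -e * y * A + e * z * (A * R) - (-2 * e ^ 2 - 6 * e ^ 2 * τ + 2 * e * σ)
        = A * (-e * y + e * z * R) - (-2 * e ^ 2 - 6 * e ^ 2 * τ + 2 * e * σ) := by ring
      _ = _ := by rw [f1, eA]; ring
  rw [key]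
  have s1 : PO p 4 (6 * (τ * (e * σ))) := by
    have h3 : PO p (1 + (1 + 2)) (τ * (e * σ)) := hτ.mul (he.mul hσ)
    exact (of_ofNat 6).mul0 h3
  have s2 : PO p 4 (a * (-2 * e ^ 2 + 2 * (e * σ))) := by
    have h4 : PO p 2 (-2 * e ^ 2) := by
      have := he.pow 2
      rw [one_mul] at this
      exact (of_ofNat 2).neg.mul0 this
    have h5 : PO p 2 (2 * (e * σ)) := (of_ofNat 2).mul0 ((he.mul hσ).mono (by norm_num))
    have h6 : PO p (2 + 2) (a * (-2 * e ^ 2 + 2 * (e * σ))) := hA.mul (h4.add h5)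
    exact h6
  exact (s1.add s2).add (hA0.mul0 hε)

section final

variable {p : ℕ} [hp : Fact p.Prime] {n : ℕ} (hv : ∀ i < 2 * n, PO p 1 (vv n i)) (h2 : p ≠ 2)

include hv h2

lemma VV_expand : PO p 4 (VV n - (1 - (1 / 2) * PP n 2 - (1 / 2) * XX n)) := by
  have hw : ∀ j < n, PO p 1 (ww n j) := fun j hj => hv _ (by omega)
  have hcn := cc_ne n n (by omega)
  have e1 : VV n = 1 + ∑ r ∈ range n, (-(vv n r / 2) / (1 - vv n r / 2) * (∏ j ∈ range (r + 1), (chi (ww n j))⁻¹) +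
      (vv n r / 2) / (1 + vv n r / 2) * ((∏ j ∈ range (r + 1), (chi (ww n j))⁻¹) *
        (∏ j ∈ range (r + 1), (chi (ww n j) * chi (rfl' (ww n j)))))) := by
    unfold VV
    rw [VV_split n (fun m => ((2 * n + 1 : ℚ) / (2 * m + 1)) * (cc n m / cc n n))]
    have h3 : (2 * (n : ℚ) + 1) ≠ 0 := by positivity
    rw [div_self h3, div_self hcn, one_mul]
    congr 1
    apply sum_congr rfl
    intro r hr
    have hr' := mem_range.1 hr
    rw [half_low n r hr', half_high n r, cc_high n r hr', prod_mul_distrib]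
    have h4 := cc_low n r hr'
    have h5 : ∏ j ∈ range (r + 1), chi (ww n j) ≠ 0 := by
      intro h
      rw [h, mul_zero] at h4
      exact hcn h4
    have h6 : cc n (n - 1 - r) / cc n n = ∏ j ∈ range (r + 1), (chi (ww n j))⁻¹ := by
      rw [prod_inv_distrib, div_eq_iff hcn]
      conv_rhs => rw [h4]
      field_simp
    rw [h6]
    have h7 : (∏ j ∈ range (r + 1), (chi (ww n j))⁻¹) * (∏ j ∈ range (r + 1), chi (ww n j)) = 1 := by
      rw [prod_inv_distrib]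
      exact inv_mul_cancel₀ h5
    congr 1
    congr 1
    generalize (∏ j ∈ range (r + 1), (chi (ww n j))⁻¹) = A at *
    generalize (∏ j ∈ range (r + 1), chi (ww n j)) = B at *
    generalize (∏ j ∈ range (r + 1), chi (rfl' (ww n j))) = D at *
    calc cc n n * D / cc n n = D := by field_simp
      _ = (A * B) * D := by rw [h7, one_mul]
      _ = A * (B * D) := by ring
  -- sums of the reversed sequence
  have hterm : PO p 4 (∑ r ∈ range n, (-(vv n r / 2) / (1 - vv n r / 2) * (∏ j ∈ range (r + 1), (chi (ww n j))⁻¹) +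
      (vv n r / 2) / (1 + vv n r / 2) * ((∏ j ∈ range (r + 1), (chi (ww n j))⁻¹) *
        (∏ j ∈ range (r + 1), (chi (ww n j) * chi (rfl' (ww n j)))))) -
      ∑ r ∈ range n, (-2 * (vv n r / 2) ^ 2 - 6 * (vv n r / 2) ^ 2 * (∑ j ∈ range (r + 1), ww n j) +
        2 * (vv n r / 2) * (∑ j ∈ range (r + 1), ww n j ^ 2))) := by
    apply PO.sum_sub
    intro r hr
    have hr' := mem_range.1 hr
    have he : PO p 1 (vv n r / 2) := by
      have h := (hv r (by omega)).mul0' (inv_two h2)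
      rwa [← div_eq_mul_inv] at h
    have hwr : ∀ j ∈ range (r + 1), PO p 1 (ww n j) := fun j hj => hw j (by have := mem_range.1 hj; omega)
    have hA := (prod_expand (p := p) (k := 2) (l := 1) (by norm_num) (range (r + 1))
      (fun j => (chi (ww n j))⁻¹) (fun j => 3 * ww n j)
      (fun j hj => chi_inv_expand (hwr j hj)) (fun j hj => (of_ofNat 3).mul0 (hwr j hj))).1
    rw [← mul_sum] at hA
    have hR := (prod_expand (p := p) (k := 3) (l := 2) (by norm_num) (range (r + 1))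
      (fun j => chi (ww n j) * chi (rfl' (ww n j))) (fun j => 2 * ww n j ^ 2)
      (fun j hj => chi_refl_expand (hwr j hj)) (fun j hj => (of_ofNat 2).mul0 ((hwr j hj).pow 2))).1
    rw [← mul_sum] at hR
    exact term_expand he hA hR (PO.sum _ _ hwr) (PO.sum _ _ (fun j hj => (hwr j hj).pow 2))
  have hsum : ∑ r ∈ range n, (-2 * (vv n r / 2) ^ 2 - 6 * (vv n r / 2) ^ 2 * (∑ j ∈ range (r + 1), ww n j) +
        2 * (vv n r / 2) * (∑ j ∈ range (r + 1), ww n j ^ 2)) = -(1 / 2) * PP n 2 - (1 / 2) * XX n := by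
    have hY := YY_eq n
    have h3 : ∑ r ∈ range n, (-2 * (vv n r / 2) ^ 2 - 6 * (vv n r / 2) ^ 2 * (∑ j ∈ range (r + 1), ww n j) +
        2 * (vv n r / 2) * (∑ j ∈ range (r + 1), ww n j ^ 2)) = -(1 / 2) * PP n 2 - (3 / 2) * XX n +
        ∑ r ∈ range n, vv n r * ∑ j ∈ range (r + 1), vv n (n - 1 - j) ^ 2 := by
      unfold PP XX ww
      rw [mul_sum, mul_sum, ← sum_sub_distrib, ← sum_add_distrib]
      apply sum_congr rfl
      intro r _
      ring
    rw [h3, hY]; ring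
  rw [hsum] at hterm
  rw [e1]
  have e4 : ∀ S : ℚ, 1 + S - (1 - (1 / 2) * PP n 2 - (1 / 2) * XX n) = S - (-(1 / 2) * PP n 2 - (1 / 2) * XX n) := by
    intro S; ring
  rw [e4]
  exact hterm

lemma psi_prod : PO p 4 ((∏ i ∈ range n, psi (vv n i)) - (1 - (17 / 4) * PP n 2 - (21 / 4) * PP n 3)) := by
  have hvn : ∀ j ∈ range n, PO p 1 (vv n j) := fun j hj => hv _ (by have := mem_range.1 hj; omega)
  have h4 : PO p 0 (17 / 4 : ℚ) := by
    have : (17 / 4 : ℚ) = 17 * ((2 : ℚ)⁻¹) ^ 2 := by norm_num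
    rw [this]; exact (of_ofNat 17).mul0 ((inv_two h2).pow0 2)
  have h5 : PO p 0 (21 / 4 : ℚ) := by
    have : (21 / 4 : ℚ) = 21 * ((2 : ℚ)⁻¹) ^ 2 := by norm_num
    rw [this]; exact (of_ofNat 21).mul0 ((inv_two h2).pow0 2)
  have hA := (prod_expand (p := p) (k := 4) (l := 2) (by norm_num) (range n)
      (fun j => psi (vv n j)) (fun j => -(17 / 4) * vv n j ^ 2 - (21 / 4) * vv n j ^ 3)
      (fun j hj => psi_expand h2 (hvn j hj)) (fun j hj =>
        (h4.neg.mul0 ((hvn j hj).pow 2)).sub (h5.mul0 (((hvn j hj).pow 3).mono (by norm_num))))).1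
  have e : (∏ i ∈ range n, psi (vv n i)) - (1 - (17 / 4) * PP n 2 - (21 / 4) * PP n 3) =
      ∏ i ∈ range n, psi (vv n i) - 1 - ∑ j ∈ range n, (-(17 / 4) * vv n j ^ 2 - (21 / 4) * vv n j ^ 3) := by
    unfold PP
    rw [sum_sub_distrib, ← mul_sum, ← mul_sum]
    ring
  rw [e]
  exact hA

/-- The value of the normalised sum modulo `p^4`, in terms of a double harmonic sum. -/
theorem TT_mod : PO p 4 (TT n - (3 + (7 / 2) * SS n)) := by
  have hV := VV_expand hv h2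
  have hpsi := psi_prod hv h2
  have hP2 := PP_PO hv 2
  have hP3 := PP_PO hv 3
  have hX := XX_P3 hv h2
  have h3P := three_P2 hv h2
  have hS := SS_P3 hv h2
  have hi2 := inv_two (p := p) h2
  have q8 : ∀ z : ℤ, PO p 0 ((z : ℚ) / 8) := by
    intro z
    have : (z : ℚ) / 8 = z * ((2 : ℚ)⁻¹) ^ 3 := by norm_num; ring
    rw [this]; exact (of_int z).mul0 (hi2.pow0 3)
  have hX3 : PO p 3 (XX n) := by
    have e : XX n = (XX n - (7 / 4) * PP n 3) + ((14 : ℤ) : ℚ) / 8 * PP n 3 := by push_cast; ring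
    rw [e]
    exact (hX.mono (by norm_num)).add ((q8 14).mul0 hP3)
  rw [T_eq2]
  set Ψ := ∏ i ∈ range n, psi (vv n i)
  obtain ⟨a, ha⟩ : ∃ a : ℚ, a = Ψ - (1 - (17 / 4) * PP n 2 - (21 / 4) * PP n 3) := ⟨_, rfl⟩
  obtain ⟨b, hb⟩ : ∃ b : ℚ, b = VV n - (1 - (1 / 2) * PP n 2 - (1 / 2) * XX n) := ⟨_, rfl⟩
  rw [← ha] at hpsi
  rw [← hb] at hV
  have eΨ : Ψ = 1 - (17 / 4) * PP n 2 - (21 / 4) * PP n 3 + a := by rw [ha]; ring
  have eV : VV n = 1 - (1 / 2) * PP n 2 - (1 / 2) * XX n + b := by rw [hb]; ring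
  have hV0 : PO p 0 (VV n) := by
    rw [eV]
    have t1 : PO p 0 ((1 / 2) * PP n 2) := (half h2).mul0 (hP2.mono (Nat.zero_le _))
    have t2 : PO p 0 ((1 / 2) * XX n) := (half h2).mul0 (hX3.mono (Nat.zero_le _))
    exact ((one.sub t1).sub t2).add (hV.mono (Nat.zero_le _))
  have hΨ0 : PO p 0 (1 - (17 / 4) * PP n 2 - (21 / 4) * PP n 3) := by
    have e : 1 - (17 / 4) * PP n 2 - (21 / 4) * PP n 3 = 1 - ((34 : ℤ) : ℚ) / 8 * PP n 2 - ((42 : ℤ) : ℚ) / 8 * PP n 3 := by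
      push_cast; ring
    rw [e]
    exact (one.sub ((q8 34).mul0 (hP2.mono (Nat.zero_le _)))).sub ((q8 42).mul0 (hP3.mono (Nat.zero_le _)))
  have key : 3 * Ψ * VV n - (3 + (7 / 2) * SS n) =
      3 * (a * VV n) + 3 * ((1 - (17 / 4) * PP n 2 - (21 / 4) * PP n 3) * b) +
      (((51 : ℤ) : ℚ) / 8 * (PP n 2 * PP n 2) + ((51 : ℤ) : ℚ) / 8 * (PP n 2 * XX n)
        + ((63 : ℤ) : ℚ) / 8 * (PP n 3 * PP n 2) + ((63 : ℤ) : ℚ) / 8 * (PP n 3 * XX n))
      + ((-38 : ℤ) : ℚ) / 8 * (3 * PP n 2 + (7 / 2) * PP n 3)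
      + ((-12 : ℤ) : ℚ) / 8 * (XX n - (7 / 4) * PP n 3)
      + ((-28 : ℤ) : ℚ) / 8 * (SS n + (1 / 2) * PP n 3) := by
    rw [eΨ, eV]
    push_cast
    ring
  rw [key]
  have c1 : PO p 4 (3 * (a * VV n)) := (of_ofNat 3).mul0 (hpsi.mul0' hV0)
  have c2 : PO p 4 (3 * ((1 - (17 / 4) * PP n 2 - (21 / 4) * PP n 3) * b)) := (of_ofNat 3).mul0 (hΨ0.mul0 hV)
  have c3 : PO p 4 (((51 : ℤ) : ℚ) / 8 * (PP n 2 * PP n 2)) := (q8 51).mul0 (hP2.mul hP2)
  have c4 : PO p 4 (((51 : ℤ) : ℚ) / 8 * (PP n 2 * XX n)) := (q8 51).mul0 ((hP2.mul hX3).mono (by norm_num))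
  have c5 : PO p 4 (((63 : ℤ) : ℚ) / 8 * (PP n 3 * PP n 2)) := (q8 63).mul0 ((hP3.mul hP2).mono (by norm_num))
  have c6 : PO p 4 (((63 : ℤ) : ℚ) / 8 * (PP n 3 * XX n)) := (q8 63).mul0 ((hP3.mul hX3).mono (by norm_num))
  have c7 : PO p 4 (((-38 : ℤ) : ℚ) / 8 * (3 * PP n 2 + (7 / 2) * PP n 3)) := (q8 (-38)).mul0 h3P
  have c8 : PO p 4 (((-12 : ℤ) : ℚ) / 8 * (XX n - (7 / 4) * PP n 3)) := (q8 (-12)).mul0 hX
  have c9 : PO p 4 (((-28 : ℤ) : ℚ) / 8 * (SS n + (1 / 2) * PP n 3)) := (q8 (-28)).mul0 hS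
  exact ((((c1.add c2).add (((c3.add c4).add c5).add c6)).add c7).add c8).add c9

end final

end Pool.Agent.H434R2
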