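import Pool.Agent.H434R2.ElevenF

set_option autoImplicit false
set_option linter.unusedSectionVars false

/-!
Seventh step: Bernoulli numbers and prime powers.
-/

namespace Pool.Agent.H434R2

open PO Finset

variable {p : ℕ} [hp : Fact p.Prime]

/-- `p^a/m` is divisible by `p^k` if `p^(a+1-k)` does not divide `m`. -/
lemma PO_ppow_div {a k s m : ℕ} (hs : k + s = a + 1) (hm : ¬ p ^ s ∣ m) : PO p k ((p : ℚ) ^ a / m) := by
  have hm0 : m ≠ 0 := by rintro rfl; exact hm (dvd_zero _)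
  obtain ⟨e, m', hm', he⟩ := Nat.exists_eq_pow_mul_and_not_dvd hm0 p hp.out.ne_one
  have hes : e < s := by
    by_contra h
    apply hm
    rw [he]
    exact dvd_mul_of_dvd_left (pow_dvd_pow p (by omega)) _
  have hp0 : (p : ℚ) ≠ 0 := by exact_mod_cast hp.out.ne_zero
  have hm'0 : (m' : ℚ) ≠ 0 := by
    rintro h
    have : m' = 0 := by exact_mod_cast h
    subst this
    exact hm' (dvd_zero _)
  obtain ⟨d, hd⟩ : ∃ d, a = e + (k + d) := ⟨a - e - k, by omega⟩
  have e1 : (p : ℚ) ^ a / m = (p : ℚ) ^ (k + d) * (m' : ℚ)⁻¹ := by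
    rw [he, hd, pow_add]
    push_cast
    field_simp
  rw [e1]
  exact ((ppow (p := p) (k + d)).mono (by omega)).mul0' (inv_nat hm')

lemma PO_of_zmod {z : ℤ} (h : (z : ZMod p) = 0) : PO p 1 (z : ℚ) := by
  have h1 : (p : ℤ) ∣ z := (ZMod.intCast_zmod_eq_zero_iff_dvd z p).1 h
  obtain ⟨c, hc⟩ := h1
  rw [hc]
  push_cast
  have := (ppow (p := p) 1).mul0' (of_int (p := p) c)
  rwa [pow_one] at this

lemma power_sum_zmod (e : ℕ) : ∑ b ∈ range (p - 1), (((b + 1 : ℕ) : ZMod p)) ^ e =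
    if p - 1 ∣ e then -1 else 0 := by
  classical
  have h := FiniteField.sum_pow_units (ZMod p) e
  rw [ZMod.card] at h
  rw [← h]
  symm
  refine Finset.sum_bij (fun (x : (ZMod p)ˣ) _ => (x : ZMod p).val - 1) ?_ ?_ ?_ ?_
  · intro x _
    have h1 : (x : ZMod p).val < p := ZMod.val_lt _
    have h2 : (x : ZMod p).val ≠ 0 := by
      rw [Ne, ZMod.val_eq_zero]; exact x.ne_zero
    rw [mem_range]; omega
  · intro x _ y _ hxy
    have h2 : (x : ZMod p).val ≠ 0 := by
      rw [Ne, ZMod.val_eq_zero]; exact x.ne_zero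
    have h3 : (y : ZMod p).val ≠ 0 := by
      rw [Ne, ZMod.val_eq_zero]; exact y.ne_zero
    have h4 : (x : ZMod p).val = (y : ZMod p).val := by
      have : (x : ZMod p).val - 1 = (y : ZMod p).val - 1 := hxy
      omega
    exact Units.ext (ZMod.val_injective p h4)
  · intro b hb
    have hb' := mem_range.1 hb
    have hne : ((b + 1 : ℕ) : ZMod p) ≠ 0 := by
      intro h0
      rw [ZMod.natCast_eq_zero_iff] at h0
      have := Nat.le_of_dvd (by omega) h0
      omega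
    refine ⟨Units.mk0 _ hne, mem_univ _, ?_⟩
    show (((b + 1 : ℕ) : ZMod p)).val - 1 = b
    rw [ZMod.val_natCast_of_lt (by omega)]
    omega
  · intro x _
    have h2 : (x : ZMod p).val ≠ 0 := by
      rw [Ne, ZMod.val_eq_zero]; exact x.ne_zero
    have h5 : (x : ZMod p).val - 1 + 1 = (x : ZMod p).val := by omega
    show (x : ZMod p) ^ e = (((x : ZMod p).val - 1 + 1 : ℕ) : ZMod p) ^ e
    rw [h5, ZMod.natCast_zmod_val]

lemma power_sum (e : ℕ) : PO p 1 (∑ b ∈ range (p - 1), ((b : ℚ) + 1) ^ e - (if p - 1 ∣ e then -1 else 0)) := by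
  have h := power_sum_zmod (p := p) e
  have hz : ((∑ b ∈ range (p - 1), ((b : ℤ) + 1) ^ e - (if p - 1 ∣ e then -1 else 0) : ℤ) : ZMod p) = 0 := by
    push_cast
    rw [sub_eq_zero]
    have : ∑ b ∈ range (p - 1), ((b : ZMod p) + 1) ^ e = ∑ b ∈ range (p - 1), (((b + 1 : ℕ) : ZMod p)) ^ e := by
      apply sum_congr rfl; intro b _; push_cast; rfl
    rw [this, h]
  have := PO_of_zmod hz
  have e2 : ((∑ b ∈ range (p - 1), ((b : ℤ) + 1) ^ e - (if p - 1 ∣ e then -1 else 0) : ℤ) : ℚ) =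
      ∑ b ∈ range (p - 1), ((b : ℚ) + 1) ^ e - (if p - 1 ∣ e then -1 else 0) := by
    push_cast
    rfl
  rwa [e2] at this

lemma fermat (m : ℕ) (hm : ¬ p ∣ m) : PO p 1 ((m : ℚ) ^ (p - 1) - 1) := by
  have hz : (((m : ℤ) ^ (p - 1) - 1 : ℤ) : ZMod p) = 0 := by
    push_cast
    rw [sub_eq_zero]
    apply ZMod.pow_card_sub_one_eq_one
    rw [Ne, ZMod.natCast_eq_zero_iff]; exact hm
  have := PO_of_zmod hz
  push_cast at this
  exact this

lemma bern_PO (i : ℕ) (hi : i + 2 ≤ p) : PO p 0 (bernoulli i) := by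
  induction i using Nat.strong_induction_on with
  | _ i ih =>
    rcases Nat.eq_zero_or_pos i with h0 | h0
    · subst h0; simpa using one
    · have h := sum_bernoulli (i + 1)
      rw [if_neg (by omega), sum_range_succ] at h
      have h1 : ((i + 1).choose i : ℚ) = i + 1 := by
        rw [Nat.choose_succ_self_right]; push_cast; ring
      rw [h1] at h
      have hi1 : ((i : ℚ) + 1) ≠ 0 := by positivity
      have e : bernoulli i = (((i + 1 : ℕ) : ℚ))⁻¹ * (- ∑ k ∈ range i, ((i + 1).choose k : ℚ) * bernoulli k) := by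
        push_cast
        field_simp
        linarith
      rw [e]
      apply PO.mul0
      · apply inv_nat
        intro hd
        have := Nat.le_of_dvd (by omega) hd
        omega
      · apply PO.neg
        apply PO.sum
        intro k hk
        have hk' := mem_range.1 hk
        exact (of_nat _).mul0 (ih k hk' (by omega))

/-- `Σ_{a<b<p} 1/(a b²) ≡ B_{p-3} (mod p)` -/
lemma double_harmonic (h2 : p ≠ 2) :
    PO p 1 (∑ b ∈ range (p - 1), (1 / ((b : ℚ) + 1) ^ 2) * ∑ a ∈ range b, 1 / ((a : ℚ) + 1) - bernoulli (p - 3)) := by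
  have hp3 : 3 ≤ p := by
    have := hp.out.two_le
    omega
  -- integrality of 1/(a+1)
  have hinv : ∀ a < p - 1, PO p 0 (((a : ℚ) + 1)⁻¹) := by
    intro a ha
    have : PO p 0 (((a + 1 : ℕ) : ℚ)⁻¹) := by
      apply inv_nat
      intro hd
      have := Nat.le_of_dvd (by omega) hd
      omega
    push_cast at this
    exact this
  have hferm : ∀ a < p - 1, PO p 1 (((a : ℚ) + 1) ^ (p - 1) - 1) := by
    intro a ha
    have := fermat (p := p) (a + 1) (by
      intro hd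
      have := Nat.le_of_dvd (by omega) hd
      omega)
    push_cast at this
    exact this
  -- replace the inverses by powers
  have s1 : ∀ a < p - 1, PO p 1 (1 / ((a : ℚ) + 1) - ((a : ℚ) + 1) ^ (p - 2)) := by
    intro a ha
    have ha0 : ((a : ℚ) + 1) ≠ 0 := by positivity
    have e : 1 / ((a : ℚ) + 1) - ((a : ℚ) + 1) ^ (p - 2) = -(((a : ℚ) + 1) ^ (p - 1) - 1) * ((a : ℚ) + 1)⁻¹ := by
      have : ((a : ℚ) + 1) ^ (p - 1) = ((a : ℚ) + 1) ^ (p - 2) * ((a : ℚ) + 1) := by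
        rw [← pow_succ]; congr 1; omega
      rw [this]; field_simp; ring
    rw [e]
    exact (hferm a ha).neg.mul0' (hinv a ha)
  have s2 : ∀ a < p - 1, PO p 1 (1 / ((a : ℚ) + 1) ^ 2 - ((a : ℚ) + 1) ^ (p - 3)) := by
    intro a ha
    have ha0 : ((a : ℚ) + 1) ≠ 0 := by positivity
    have e : 1 / ((a : ℚ) + 1) ^ 2 - ((a : ℚ) + 1) ^ (p - 3) = -(((a : ℚ) + 1) ^ (p - 1) - 1) * (((a : ℚ) + 1)⁻¹) ^ 2 := by
      have : ((a : ℚ) + 1) ^ (p - 1) = ((a : ℚ) + 1) ^ (p - 3) * ((a : ℚ) + 1) ^ 2 := by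
        rw [← pow_add]; congr 1; omega
      rw [this]; field_simp; ring
    rw [e]
    exact (hferm a ha).neg.mul0' ((hinv a ha).pow0 2)
  have hint : ∀ a : ℕ, PO p 0 ((a : ℚ) + 1) := fun a => (of_nat a).add one
  have r1 : PO p 1 (∑ b ∈ range (p - 1), (1 / ((b : ℚ) + 1) ^ 2) * ∑ a ∈ range b, 1 / ((a : ℚ) + 1)
      - ∑ b ∈ range (p - 1), ((b : ℚ) + 1) ^ (p - 3) * ∑ a ∈ range b, ((a : ℚ) + 1) ^ (p - 2)) := by
    apply PO.sum_sub
    intro b hb
    have hb' := mem_range.1 hb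
    have t1 : PO p 1 (∑ a ∈ range b, 1 / ((a : ℚ) + 1) - ∑ a ∈ range b, ((a : ℚ) + 1) ^ (p - 2)) := by
      apply PO.sum_sub
      intro a ha
      have ha' := mem_range.1 ha
      exact s1 a (by omega)
    have t2 : PO p 0 (∑ a ∈ range b, 1 / ((a : ℚ) + 1)) := by
      apply PO.sum
      intro a ha
      have ha' := mem_range.1 ha
      rw [one_div]
      exact hinv a (by omega)
    have e : (1 / ((b : ℚ) + 1) ^ 2) * ∑ a ∈ range b, 1 / ((a : ℚ) + 1) - ((b : ℚ) + 1) ^ (p - 3) * ∑ a ∈ range b, ((a : ℚ) + 1) ^ (p - 2)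
      = (1 / ((b : ℚ) + 1) ^ 2 - ((b : ℚ) + 1) ^ (p - 3)) * ∑ a ∈ range b, 1 / ((a : ℚ) + 1) +
        ((b : ℚ) + 1) ^ (p - 3) * (∑ a ∈ range b, 1 / ((a : ℚ) + 1) - ∑ a ∈ range b, ((a : ℚ) + 1) ^ (p - 2)) := by ring
    rw [e]
    exact ((s2 b hb').mul0' t2).add (((hint b).pow0 _).mul0 t1)
  -- Faulhaber
  have r2 : ∀ b : ℕ, ∑ a ∈ range b, ((a : ℚ) + 1) ^ (p - 2) =
      ∑ i ∈ range (p - 1), bernoulli i * ((p - 1).choose i : ℚ) * ((b : ℚ) + 1) ^ (p - 1 - i) / ((p : ℚ) - 1) := by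
    intro b
    have h := sum_range_pow (b + 1) (p - 2)
    rw [sum_range_succ'] at h
    have e0 : ((0 : ℕ) : ℚ) ^ (p - 2) = 0 := by
      rw [Nat.cast_zero]; exact zero_pow (by omega)
    rw [e0, add_zero] at h
    have e1 : p - 2 + 1 = p - 1 := by omega
    rw [e1] at h
    have e2 : ((p - 2 : ℕ) : ℚ) + 1 = (p : ℚ) - 1 := by
      rw [Nat.cast_sub (by omega)]; push_cast; ring
    rw [e2] at h
    push_cast at h
    exact h
  have r3 : ∑ b ∈ range (p - 1), ((b : ℚ) + 1) ^ (p - 3) * ∑ a ∈ range b, ((a : ℚ) + 1) ^ (p - 2) =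
      ∑ i ∈ range (p - 1), (bernoulli i * ((p - 1).choose i : ℚ) * ((p : ℚ) - 1)⁻¹) *
        ∑ b ∈ range (p - 1), ((b : ℚ) + 1) ^ (p - 3 + (p - 1 - i)) := by
    have : ∀ b ∈ range (p - 1), ((b : ℚ) + 1) ^ (p - 3) * ∑ a ∈ range b, ((a : ℚ) + 1) ^ (p - 2) =
        ∑ i ∈ range (p - 1), (bernoulli i * ((p - 1).choose i : ℚ) * ((p : ℚ) - 1)⁻¹) * ((b : ℚ) + 1) ^ (p - 3 + (p - 1 - i)) := by
      intro b _
      rw [r2, mul_sum]
      apply sum_congr rfl
      intro i _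
      rw [pow_add]
      ring
    rw [sum_congr rfl this, sum_comm]
    apply sum_congr rfl
    intro i _
    rw [mul_sum]
  have hpm1 : PO p 0 (((p : ℚ) - 1)⁻¹) := by
    have h1 : PO p 0 (((p - 1 : ℕ) : ℚ)⁻¹) := by
      apply inv_nat
      intro hd
      have := Nat.le_of_dvd (by omega) hd
      omega
    rw [Nat.cast_sub (by omega)] at h1
    simpa using h1
  have r4 : PO p 1 (∑ i ∈ range (p - 1), (bernoulli i * ((p - 1).choose i : ℚ) * ((p : ℚ) - 1)⁻¹) *
        ∑ b ∈ range (p - 1), ((b : ℚ) + 1) ^ (p - 3 + (p - 1 - i)) -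
      ∑ i ∈ range (p - 1), (bernoulli i * ((p - 1).choose i : ℚ) * ((p : ℚ) - 1)⁻¹) *
        (if p - 1 ∣ (p - 3 + (p - 1 - i)) then -1 else 0)) := by
    apply PO.sum_sub
    intro i hi
    have hi' := mem_range.1 hi
    rw [← mul_sub]
    exact (((bern_PO i (by omega)).mul0 (of_nat _)).mul0 hpm1).mul0 (power_sum _)
  have r5 : ∑ i ∈ range (p - 1), (bernoulli i * ((p - 1).choose i : ℚ) * ((p : ℚ) - 1)⁻¹) *
        (if p - 1 ∣ (p - 3 + (p - 1 - i)) then -1 else 0) =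
        (bernoulli (p - 3) * ((p - 1).choose (p - 3) : ℚ) * ((p : ℚ) - 1)⁻¹) * (-1) := by
    rw [Finset.sum_eq_single (p - 3)]
    · have : p - 1 ∣ (p - 3 + (p - 1 - (p - 3))) := by
        have : p - 3 + (p - 1 - (p - 3)) = p - 1 := by omega
        rw [this]
      rw [if_pos this]
    · intro i hi hne
      have hi' := mem_range.1 hi
      rw [if_neg, mul_zero]
      rintro ⟨c, hc⟩
      have hc1 : c = 1 := by
        have h3 : c < 2 := by
          by_contra hcc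
          have : (p - 1) * 2 ≤ (p - 1) * c := Nat.mul_le_mul_left _ (by omega)
          omega
        have h4 : c ≠ 0 := by
          rintro rfl
          omega
        omega
      rw [hc1, mul_one] at hc
      omega
    · intro h
      exfalso; apply h; rw [mem_range]; omega
  have hch : ((p - 1).choose (p - 3) : ℚ) = ((p : ℚ) - 1) * (p - 2) / 2 := by
    have h1 : (p - 1).choose (p - 3) = (p - 1).choose 2 := by
      rw [← Nat.choose_symm (by omega : 2 ≤ p - 1)]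
      congr 1
    rw [h1, Nat.cast_choose_two, Nat.cast_sub (by omega)]
    push_cast; ring
  have hpm0 : ((p : ℚ) - 1) ≠ 0 := by
    have : (3 : ℚ) ≤ p := by exact_mod_cast hp3
    linarith
  have hp1 : PO p 1 (p : ℚ) := by
    have := ppow (p := p) 1
    rwa [pow_one] at this
  rw [r5, hch] at r4
  rw [r3] at r1
  set L := ∑ b ∈ range (p - 1), (1 / ((b : ℚ) + 1) ^ 2) * ∑ a ∈ range b, 1 / ((a : ℚ) + 1)
  set M := ∑ i ∈ range (p - 1), (bernoulli i * ((p - 1).choose i : ℚ) * ((p : ℚ) - 1)⁻¹) *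
        ∑ b ∈ range (p - 1), ((b : ℚ) + 1) ^ (p - 3 + (p - 1 - i))
  have e : L - bernoulli (p - 3) = (L - M) + (M - (bernoulli (p - 3) * (((p : ℚ) - 1) * (p - 2) / 2) * ((p : ℚ) - 1)⁻¹) * (-1))
      - (1 / 2) * (bernoulli (p - 3) * p) := by
    field_simp
    ring
  rw [e]
  exact (r1.add r4).sub ((half h2).mul0 ((bern_PO (p - 3) (by omega)).mul0 hp1))

end Pool.Agent.H434R2
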