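import Pool.Agent.H390R2.LP.Iface
import Pool.Agent.H818R2.Beta
import Pool.Agent.H818R2.Limit

/-! Sphere packings from the product theorem `IID` (TEAM LP, task 5). -/

open MeasureTheory Metric Filter Set Finset
open scoped Topology

namespace Pool.Agent.H434R2.LP

open Pool.Agent.H390R2.LP Pool.Agent.H818R2

section
variable {Ω : Type} [Fintype Ω] [DecidableEq Ω] {q : ℕ}

/-- the grid functional with spacing `hg` -/
noncomputable def gf (q : ℕ) (hg : ℝ) : Unit → Fin q → ℝ := fun _ x => hg * ((x : ℕ) : ℝ)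

/-- combinatorial step: separated sets of grid points in a cube of side `L` -/
lemma grid_count (iid : IID) (s : Site Ω (Fin q)) (hg : ℝ) {ε : ℝ} (hε : 0 < ε) :
    ∃ n0 : ℕ, ∀ n ≥ n0, ∀ (L : ℕ) (C : Finset (Fin n → ℕ)), (∀ c ∈ C, ∀ i, c i < L) →
      (∀ c ∈ C, ∀ c' ∈ C, c ≠ c' →
        n * (max (s.E (gf q hg)) 0 + 2 * ε) ≤ ∑ i, (hg * (c i : ℝ) - hg * (c' i : ℝ)) ^ 2) →
      (C.card : ℝ) ≤ ((L : ℝ) + q) ^ n * Real.exp (-(n * (s.h - s.S - ε))) := by
  classical
  obtain ⟨n0, hn0⟩ := iid Ω (Fin q) Unit s (gf q hg) ε hε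
  refine ⟨max n0 1, fun n hn L C hCL hC => ?_⟩
  have hn1 : 1 ≤ n := (le_max_right _ _).trans hn
  have hn2 : n ≥ n0 := (le_max_left _ _).trans hn
  by_contra hcon
  push Not at hcon
  have hM : 0 < C.card := by
    have h0 : (0 : ℝ) ≤ ((L : ℝ) + q) ^ n * Real.exp (-(n * (s.h - s.S - ε))) := by positivity
    exact_mod_cast h0.trans_lt hcon
  have key := hn0 n hn2 (Fin n → Fin (L + q))
    (fun v => univ.filter (fun y : Fin n → Fin q => ∃ c ∈ C, ∀ i, c i + (v i : ℕ) = (y i : ℕ) + L))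
    C.card (n * (max (s.E (gf q hg)) 0 + 2 * ε)) hM ?_ ?_ ?_
  · have h1 : s.E (gf q hg) ≤ max (s.E (gf q hg)) 0 := le_max_left _ _
    have h2 : (0 : ℝ) < n := by exact_mod_cast hn1
    have h3 := le_of_mul_le_mul_left key h2
    linarith
  · intro y
    let g : (Fin n → ℕ) → (Fin n → Fin (L + q)) := fun c i => ⟨(y i : ℕ) + L - c i, by
      have := (y i).2; omega⟩
    have hg' : (univ.filter fun v : Fin n → Fin (L + q) =>
        y ∈ univ.filter (fun y : Fin n → Fin q => ∃ c ∈ C, ∀ i, c i + (v i : ℕ) = (y i : ℕ) + L))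
        = C.image g := by
      ext v
      simp only [Finset.mem_filter, Finset.mem_univ, true_and, Finset.mem_image]
      constructor
      · rintro ⟨c, hc, h⟩
        refine ⟨c, hc, ?_⟩
        funext i
        apply Fin.ext
        have := h i
        simp only [g]
        omega
      · rintro ⟨c, hc, rfl⟩
        refine ⟨c, hc, fun i => ?_⟩
        have := hCL c hc i
        simp only [g]
        omega
    rw [hg', Finset.card_image_of_injOn]
    intro c hc c' hc' hcc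
    funext i
    have h1 := congrArg (fun f => (f i : ℕ)) hcc
    have h2 := hCL c hc i
    have h3 := hCL c' hc' i
    simp only [g] at h1
    omega
  · intro v x hx y hy hxy
    simp only [Finset.mem_filter, Finset.mem_univ, true_and] at hx hy
    obtain ⟨c, hc, hcx⟩ := hx
    obtain ⟨c', hc', hcy⟩ := hy
    have hne : c ≠ c' := by
      rintro rfl
      apply hxy
      funext i
      apply Fin.ext
      have := hcx i
      have := hcy i
      omega
    refine (hC c hc c' hc' hne).trans (le_of_eq ?_)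
    apply Finset.sum_congr rfl
    intro i _
    have h1 : (c i : ℝ) + ((v i : ℕ) : ℝ) = ((x i : ℕ) : ℝ) + L := by exact_mod_cast hcx i
    have h2 : (c' i : ℝ) + ((v i : ℕ) : ℝ) = ((y i : ℕ) : ℝ) + L := by exact_mod_cast hcy i
    have h3 : (c i : ℝ) - c' i = ((x i : ℕ) : ℝ) - ((y i : ℕ) : ℝ) := by linarith
    simp only [gf, Finset.univ_unique, Finset.sum_singleton]
    rw [← mul_sub, ← mul_sub, h3]
  · have h1 : (Fintype.card (Fin n → Fin (L + q)) : ℝ) = ((L : ℝ) + q) ^ n := by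
      simp
    rw [h1]
    have h2 : ((L : ℝ) + q) ^ n * Real.exp (-(n * (s.h - s.S - ε))) * Real.exp (n * (s.h - s.S - ε))
        = ((L : ℝ) + q) ^ n := by
      rw [mul_assoc, ← Real.exp_add]; simp
    rw [← h2]
    exact mul_le_mul_of_nonneg_right hcon.le (Real.exp_pos _).le

/-- the cube `[0, a)^n` -/
def cube (n : ℕ) (a : ℝ) : Set (EuclideanSpace ℝ (Fin n)) := {x | ∀ i, x i ∈ Ico 0 a}

lemma cube_meas (n : ℕ) (a : ℝ) : MeasurableSet (cube n a) := by
  unfold cube
  rw [Set.ofPred_forall]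
  apply MeasurableSet.iInter
  intro i
  exact (by fun_prop : Measurable fun x : EuclideanSpace ℝ (Fin n) => x i) measurableSet_Ico

lemma cube_vol (n : ℕ) {a : ℝ} (ha : 0 ≤ a) : volume.real (cube n a) = a ^ n := by
  have h := (EuclideanSpace.volume_preserving_symm_measurableEquiv_toLp (Fin n))
  have h1 : cube n a = (MeasurableEquiv.toLp 2 (Fin n → ℝ)).symm ⁻¹'
      (Set.pi Set.univ fun _ => Ico 0 a) := by
    ext x
    simp only [cube, Set.mem_ofPred_eq, Set.mem_preimage, Set.mem_pi, Set.mem_univ, true_implies]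
    exact Iff.rfl
  rw [measureReal_def, h1, h.measure_preimage_equiv, Real.volume_pi_Ico_toReal]
  · simp
  · intro i; exact ha

lemma cube_sub (n : ℕ) {a : ℝ} (ha : 0 ≤ a) : cube n a ⊆ closedBall 0 (√n * a) := by
  intro x hx
  rw [mem_closedBall_zero_iff, EuclideanSpace.norm_eq]
  apply Real.sqrt_le_iff.2
  refine ⟨by positivity, ?_⟩
  calc ∑ i, ‖x i‖ ^ 2 ≤ ∑ _i : Fin n, a ^ 2 := by
        apply Finset.sum_le_sum
        intro i _
        have := hx i
        rw [Real.norm_eq_abs, sq_abs]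
        exact pow_le_pow_left₀ this.1 this.2.le 2
    _ = (√n * a) ^ 2 := by
        rw [mul_pow, Real.sq_sqrt (by positivity)]; simp

lemma norm_le_of_coord {n : ℕ} (u : EuclideanSpace ℝ (Fin n)) {a : ℝ} (ha : 0 ≤ a)
    (h : ∀ i, |u i| ≤ a) : ‖u‖ ≤ √n * a := by
  rw [EuclideanSpace.norm_eq]
  apply Real.sqrt_le_iff.2
  refine ⟨by positivity, ?_⟩
  calc ∑ i, ‖u i‖ ^ 2 ≤ ∑ _i : Fin n, a ^ 2 := by
        apply Finset.sum_le_sum
        intro i _
        rw [Real.norm_eq_abs]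
        exact pow_le_pow_left₀ (abs_nonneg _) (h i) 2
    _ = (√n * a) ^ 2 := by
        rw [mul_pow, Real.sq_sqrt (by positivity)]; simp

/-- separated sets in a cube whose side is a multiple of the grid spacing -/
lemma sep_count (iid : IID) (s : Site Ω (Fin q)) {hg : ℝ} (hhg : 0 < hg) {ε : ℝ} (hε : 0 < ε) :
    ∃ n0 : ℕ, ∀ n ≥ n0, ∀ (L : ℕ) (P : Finset (EuclideanSpace ℝ (Fin n))), Sep 2 P →
      (P : Set (EuclideanSpace ℝ (Fin n))) ⊆
        cube n (L * (2 * hg / (√n * (√(max (s.E (gf q hg)) 0 + 2 * ε) + hg)))) →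
      (P.card : ℝ) ≤ ((L : ℝ) + q) ^ n * Real.exp (-(n * (s.h - s.S - ε))) := by
  classical
  obtain ⟨n0, hn0⟩ := grid_count iid s hg hε
  refine ⟨max n0 1, fun n hn L P hP hPG => ?_⟩
  have hn1 : 1 ≤ n := (le_max_right _ _).trans hn
  have hn2 : n ≥ n0 := (le_max_left _ _).trans hn
  set e : ℝ := max (s.E (gf q hg)) 0 + 2 * ε with he
  have he0 : 0 < e := by have := le_max_right (s.E (gf q hg)) 0; linarith
  have hsn : 0 < √(n : ℝ) := Real.sqrt_pos.2 (by exact_mod_cast hn1)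
  set δ : ℝ := 2 * hg / (√n * (√e + hg)) with hδ
  have hδ0 : 0 < δ := by positivity
  let r : EuclideanSpace ℝ (Fin n) → (Fin n → ℕ) := fun x i => ⌊x i / δ⌋₊
  have hr : ∀ x ∈ P, ∀ i, δ * (r x i : ℝ) ≤ x i ∧ x i < δ * (r x i : ℝ) + δ := by
    intro x hx i
    have h1 := hPG hx i
    have h2 : 0 ≤ x i / δ := div_nonneg h1.1 hδ0.le
    have h3 := Nat.floor_le h2
    have h4 := Nat.lt_floor_add_one (x i / δ)
    constructor
    · rw [mul_comm]; exact (le_div_iff₀ hδ0).1 h3
    · have := (div_lt_iff₀ hδ0).1 h4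
      simp only [r]; nlinarith
  -- distances
  have hdist : ∀ x ∈ P, ∀ y ∈ P, x ≠ y →
      n * e ≤ ∑ i, (hg * (r x i : ℝ) - hg * (r y i : ℝ)) ^ 2 := by
    intro x hx y hy hxy
    have h1 := hP x hx y hy hxy
    rw [dist_eq_norm] at h1
    set w : EuclideanSpace ℝ (Fin n) := WithLp.toLp 2 (fun i => (r x i : ℝ) - (r y i : ℝ)) with hw
    have h2 : ‖(x - y) - δ • w‖ ≤ √n * δ := by
      apply norm_le_of_coord _ hδ0.le
      intro i
      have h3 := hr x hx i
      have h4 := hr y hy i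
      simp only [hw, PiLp.sub_apply, PiLp.smul_apply, smul_eq_mul]
      rw [abs_le]
      constructor <;> nlinarith
    have h5 : 2 ≤ δ * ‖w‖ + √n * δ := by
      calc (2 : ℝ) ≤ ‖x - y‖ := h1
        _ = ‖δ • w + ((x - y) - δ • w)‖ := by congr 1; abel
        _ ≤ ‖δ • w‖ + ‖(x - y) - δ • w‖ := norm_add_le _ _
        _ ≤ δ * ‖w‖ + √n * δ := by
            rw [norm_smul, Real.norm_of_nonneg hδ0.le]; linarith
    have h6 : √n * √e ≤ hg * ‖w‖ := by
      have h7 : δ * (√n * (√e + hg)) = 2 * hg := by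
        rw [hδ]; field_simp
      have h8 : 2 * hg ≤ hg * (δ * ‖w‖ + √n * δ) := by nlinarith
      have h9 : δ * (√n * √e) ≤ δ * (hg * ‖w‖) := by nlinarith
      exact le_of_mul_le_mul_left h9 hδ0
    have h10 : ‖w‖ ^ 2 = ∑ i, ((r x i : ℝ) - (r y i : ℝ)) ^ 2 := by
      rw [EuclideanSpace.norm_sq_eq]
      apply Finset.sum_congr rfl
      intro i _
      simp [hw]
    have h11 : ∑ i, (hg * (r x i : ℝ) - hg * (r y i : ℝ)) ^ 2 = (hg * ‖w‖) ^ 2 := by
      rw [mul_pow, h10, Finset.mul_sum]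
      apply Finset.sum_congr rfl
      intro i _; ring
    rw [h11]
    calc (n : ℝ) * e = (√n * √e) ^ 2 := by
          rw [mul_pow, Real.sq_sqrt (by positivity), Real.sq_sqrt he0.le]
      _ ≤ (hg * ‖w‖) ^ 2 := by
          apply pow_le_pow_left₀ (by positivity) h6
  have hinj : Set.InjOn r P := by
    intro x hx y hy hxy
    by_contra hne
    have h1 := hdist x hx y hy hne
    rw [hxy] at h1
    simp only [sub_self, ne_eq, OfNat.ofNat_ne_zero, not_false_eq_true, zero_pow,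
      Finset.sum_const_zero] at h1
    have h2 : (0 : ℝ) < n := by exact_mod_cast hn1
    nlinarith
  rw [← Finset.card_image_of_injOn hinj]
  apply hn0 n hn2 L (P.image r)
  · intro c hc i
    obtain ⟨x, hx, rfl⟩ := Finset.mem_image.1 hc
    have h1 := (hr x hx i).1
    have h2 := (hPG hx i).2
    have h3 : δ * (r x i : ℝ) < δ * L := by rw [mul_comm δ (L : ℝ)]; exact h1.trans_lt h2
    exact_mod_cast lt_of_mul_lt_mul_left h3 hδ0.le
  · intro c hc c' hc' hne
    obtain ⟨x, hx, rfl⟩ := Finset.mem_image.1 hc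
    obtain ⟨y, hy, rfl⟩ := Finset.mem_image.1 hc'
    exact hdist x hx y hy (fun h => hne (by rw [h]))

/-- `ρ_n^* ≤ e^{-n(h-S-ε)} |B_1| / δ^n` -/
lemma rho_le_aux (iid : IID) (s : Site Ω (Fin q)) {hg : ℝ} (hhg : 0 < hg) {ε : ℝ} (hε : 0 < ε) :
    ∃ n0 : ℕ, ∀ n ≥ n0, rho n ≤ Real.exp (-(n * (s.h - s.S - ε))) *
      (vb (EuclideanSpace ℝ (Fin n)) /
        (2 * hg / (√n * (√(max (s.E (gf q hg)) 0 + 2 * ε) + hg))) ^ n) := by
  obtain ⟨n0, hn0⟩ := sep_count iid s hhg hε
  refine ⟨max n0 1, fun n hn => ?_⟩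
  have hn1 : 1 ≤ n := (le_max_right _ _).trans hn
  have hn2 : n ≥ n0 := (le_max_left _ _).trans hn
  have hsn : 0 < √(n : ℝ) := Real.sqrt_pos.2 (by exact_mod_cast hn1)
  set δ : ℝ := 2 * hg / (√n * (√(max (s.E (gf q hg)) 0 + 2 * ε) + hg)) with hδ
  have hδ0 : 0 < δ := by positivity
  have hvb := vb_pos (E := EuclideanSpace ℝ (Fin n))
  have h1 : ∀ᶠ L : ℕ in atTop, rho n ≤ (((L : ℝ) + q) / L) ^ n *
      (Real.exp (-(n * (s.h - s.S - ε))) * (vb (EuclideanSpace ℝ (Fin n)) / δ ^ n)) := by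
    filter_upwards [eventually_gt_atTop 0] with L hL
    have hL0 : (0 : ℝ) < L := by exact_mod_cast hL
    have hLδ : (0 : ℝ) < L * δ := by positivity
    have h2 := optDensity_le (cube_meas n (L * δ)) (by positivity : (0 : ℝ) ≤ √n * (L * δ))
      (cube_sub n hLδ.le) (by rw [cube_vol n hLδ.le]; positivity)
      (N := ⌊((L : ℝ) + q) ^ n * Real.exp (-(n * (s.h - s.S - ε)))⌋₊)
      (fun P hP hPG => Nat.le_floor (hn0 n hn2 L P hP hPG))
    rw [cube_vol n hLδ.le] at h2
    refine (show rho n ≤ _ from h2).trans ?_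
    have h3 : (⌊((L : ℝ) + q) ^ n * Real.exp (-(n * (s.h - s.S - ε)))⌋₊ : ℝ) ≤
        ((L : ℝ) + q) ^ n * Real.exp (-(n * (s.h - s.S - ε))) := Nat.floor_le (by positivity)
    calc _ ≤ (((L : ℝ) + q) ^ n * Real.exp (-(n * (s.h - s.S - ε)))) *
          vb (EuclideanSpace ℝ (Fin n)) / (L * δ) ^ n := by gcongr
      _ = _ := by rw [div_pow, mul_pow]; field_simp
  have h2 : Tendsto (fun L : ℕ => (((L : ℝ) + q) / L) ^ n *
      (Real.exp (-(n * (s.h - s.S - ε))) * (vb (EuclideanSpace ℝ (Fin n)) / δ ^ n))) atTop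
      (𝓝 (1 ^ n * (Real.exp (-(n * (s.h - s.S - ε))) *
        (vb (EuclideanSpace ℝ (Fin n)) / δ ^ n)))) := by
    apply Tendsto.mul_const
    apply Tendsto.pow
    have : Tendsto (fun L : ℕ => 1 + (q : ℝ) / L) atTop (𝓝 (1 + 0)) :=
      tendsto_const_nhds.add (tendsto_const_nhds.div_atTop tendsto_natCast_atTop_atTop)
    rw [add_zero] at this
    refine this.congr' ?_
    filter_upwards [eventually_gt_atTop 0] with L hL
    have hL0 : (L : ℝ) ≠ 0 := by exact_mod_cast hL.ne'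
    field_simp
  rw [one_pow, one_mul] at h2
  exact ge_of_tendsto h2 h1

/-- `x^x e^{-x} ≤ Γ(x+1)` -/
lemma gamma_lower {x : ℝ} (hx : 0 < x) : x ^ x * Real.exp (-x) ≤ Real.Gamma (x + 1) := by
  rw [Real.Gamma_eq_integral (by positivity)]
  have h0 : IntegrableOn (fun t : ℝ => Real.exp (-t) * t ^ (x + 1 - 1)) (Ioi 0) :=
    Real.GammaIntegral_convergent (by positivity)
  calc x ^ x * Real.exp (-x) = ∫ t in Ioi x, Real.exp (-t) * x ^ x := by
        rw [integral_mul_const, integral_exp_neg_Ioi]; ring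
    _ ≤ ∫ t in Ioi x, Real.exp (-t) * t ^ (x + 1 - 1) := by
        apply setIntegral_mono_on
        · exact ((integrableOn_exp_neg_Ioi x).mul_const _)
        · exact h0.mono_set (Ioi_subset_Ioi hx.le)
        · exact measurableSet_Ioi
        · intro t ht
          apply mul_le_mul_of_nonneg_left _ (Real.exp_pos _).le
          rw [add_sub_cancel_right]
          exact Real.rpow_le_rpow hx.le (le_of_lt ht) hx.le
    _ ≤ ∫ t in Ioi 0, Real.exp (-t) * t ^ (x + 1 - 1) := by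
        apply setIntegral_mono_set h0
        · filter_upwards [ae_restrict_mem measurableSet_Ioi] with t ht
          have : (0 : ℝ) < t := ht
          simp only [Pi.zero_apply]
          positivity
        · exact (Ioi_subset_Ioi hx.le).eventuallyLE

/-- the volume of the unit ball: `|B_1| ≤ (2 π e / n)^{n/2}` -/
lemma vb_le {n : ℕ} (hn : 1 ≤ n) : vb (EuclideanSpace ℝ (Fin n)) ≤
    (√(2 * Real.pi * Real.exp 1) / √n) ^ n := by
  have : Nontrivial (EuclideanSpace ℝ (Fin n)) :=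
    Module.nontrivial_of_finrank_pos (R := ℝ) (by rw [finrank_euclideanSpace_fin]; exact hn)
  have hn0 : (0 : ℝ) < n := by exact_mod_cast hn
  rw [vb_eq, finrank_euclideanSpace_fin]
  have h1 := gamma_lower (x := (n : ℝ) / 2) (by positivity)
  have h2 : ((n : ℝ) / 2) ^ ((n : ℝ) / 2) * Real.exp (-((n : ℝ) / 2)) =
      (√((n : ℝ) / 2) / √(Real.exp 1)) ^ n := by
    have h3 : ∀ y : ℝ, 0 ≤ y → y ^ ((n : ℝ) / 2) = √y ^ n := by
      intro y hy
      rw [Real.sqrt_eq_rpow, ← Real.rpow_natCast, ← Real.rpow_mul hy]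
      congr 1; ring
    rw [div_pow, h3 _ (by positivity), ← h3 (Real.exp 1) (Real.exp_pos _).le, Real.exp_neg,
      ← Real.exp_mul]
    rw [one_mul]; rfl
  rw [h2] at h1
  have h4 : 0 < (√((n : ℝ) / 2) / √(Real.exp 1)) ^ n := by positivity
  calc √Real.pi ^ n / Real.Gamma ((n : ℝ) / 2 + 1)
      ≤ √Real.pi ^ n / (√((n : ℝ) / 2) / √(Real.exp 1)) ^ n := by gcongr
    _ = (√(2 * Real.pi * Real.exp 1) / √n) ^ n := by
        rw [← div_pow]
        congr 1
        rw [Real.sqrt_div hn0.le, Real.sqrt_mul (by positivity), Real.sqrt_mul (by positivity)]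
        field_simp

/-- the exponent (natural logarithms) given by one-site data and a grid spacing -/
noncomputable def cexp (s : Site Ω (Fin q)) (hg : ℝ) : ℝ :=
  s.h - s.S + Real.log hg - Real.log (2 * Real.pi * Real.exp 1) / 2
    - Real.log ((√(s.E (gf q hg)) + hg) / 2)

/-- Upper bound for the density of all sphere packings from one-site data. -/
theorem packing_bound (iid : IID) (s : Site Ω (Fin q)) {hg : ℝ} (hhg : 0 < hg) {ε : ℝ}
    (hε : 0 < ε) : ∃ n0 : ℕ, ∀ n ≥ n0, rho n ≤ Real.exp (-(n * (cexp s hg - ε))) := by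
  set E' : ℝ := max (s.E (gf q hg)) 0 with hE'
  have hE0 : 0 ≤ E' := le_max_right _ _
  have hsE : √(s.E (gf q hg)) = √E' := by
    rw [hE']
    rcases le_total (s.E (gf q hg)) 0 with h | h
    · rw [max_eq_right h, Real.sqrt_eq_zero_of_nonpos h, Real.sqrt_zero]
    · rw [max_eq_left h]
  obtain ⟨ε1, hε1, hε2, hε3⟩ : ∃ ε1 : ℝ, 0 < ε1 ∧ ε1 ≤ ε / 2 ∧
      Real.log ((√(E' + 2 * ε1) + hg) / 2) ≤ Real.log ((√E' + hg) / 2) + ε / 2 := by
    have hc : ContinuousAt (fun t : ℝ => Real.log ((√(E' + 2 * t) + hg) / 2)) 0 := by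
      apply ContinuousAt.log
      · fun_prop
      · have := Real.sqrt_nonneg (E' + 2 * 0)
        positivity
    have h1 : ∀ᶠ t : ℝ in 𝓝[>] 0, Real.log ((√(E' + 2 * t) + hg) / 2) <
        Real.log ((√E' + hg) / 2) + ε / 2 := by
      apply nhdsWithin_le_nhds
      apply hc.eventually_lt_const
      simp only [mul_zero, add_zero]
      linarith
    have h2 : ∀ᶠ t : ℝ in 𝓝[>] 0, t < ε / 2 :=
      nhdsWithin_le_nhds (gt_mem_nhds (by linarith))
    obtain ⟨t, ht1, ht2, ht3⟩ := (h1.and (h2.and self_mem_nhdsWithin)).exists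
    exact ⟨t, ht3, ht2.le, ht1.le⟩
  obtain ⟨n0, hn0⟩ := rho_le_aux iid s hhg hε1
  refine ⟨max n0 1, fun n hn => ?_⟩
  have hn1 : 1 ≤ n := (le_max_right _ _).trans hn
  have hn2 : n ≥ n0 := (le_max_left _ _).trans hn
  have hnn : (0 : ℝ) < n := by exact_mod_cast hn1
  have hsn : 0 < √(n : ℝ) := Real.sqrt_pos.2 hnn
  have h1 := hn0 n hn2
  rw [← hE'] at h1
  set e1 : ℝ := √(E' + 2 * ε1) with he1
  have he0 : 0 ≤ e1 := Real.sqrt_nonneg _
  have hA : 0 < √(2 * Real.pi * Real.exp 1) := by positivity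
  have h2 : vb (EuclideanSpace ℝ (Fin n)) / (2 * hg / (√n * (e1 + hg))) ^ n ≤
      (√(2 * Real.pi * Real.exp 1) * ((e1 + hg) / 2) / hg) ^ n := by
    calc _ ≤ (√(2 * Real.pi * Real.exp 1) / √n) ^ n / (2 * hg / (√n * (e1 + hg))) ^ n := by
          have := vb_le hn1
          gcongr
      _ = _ := by
          rw [← div_pow]; congr 1; field_simp
  have h3 : (√(2 * Real.pi * Real.exp 1) * ((e1 + hg) / 2) / hg) ^ n =
      Real.exp (n * (Real.log (2 * Real.pi * Real.exp 1) / 2 + Real.log ((e1 + hg) / 2)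
        - Real.log hg)) := by
    rw [Real.exp_nat_mul]
    congr 1
    rw [Real.exp_sub, Real.exp_add, Real.exp_log hhg, Real.exp_log (by positivity)]
    congr 2
    rw [← Real.log_sqrt (by positivity), Real.exp_log hA]
  calc rho n ≤ Real.exp (-(n * (s.h - s.S - ε1))) *
        (vb (EuclideanSpace ℝ (Fin n)) / (2 * hg / (√n * (e1 + hg))) ^ n) := h1
    _ ≤ Real.exp (-(n * (s.h - s.S - ε1))) *
        Real.exp (n * (Real.log (2 * Real.pi * Real.exp 1) / 2 + Real.log ((e1 + hg) / 2)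
        - Real.log hg)) := by
        rw [← h3]; gcongr
    _ ≤ Real.exp (-(n * (cexp s hg - ε))) := by
        rw [← Real.exp_add]
        apply Real.exp_le_exp.2
        have h4 : -(n * (s.h - s.S - ε1)) + n * (Real.log (2 * Real.pi * Real.exp 1) / 2 +
            Real.log ((e1 + hg) / 2) - Real.log hg) =
            -(n * (s.h - s.S - ε1 - Real.log (2 * Real.pi * Real.exp 1) / 2
              - Real.log ((e1 + hg) / 2) + Real.log hg)) := by ring
        rw [h4, neg_le_neg_iff]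
        apply mul_le_mul_of_nonneg_left _ hnn.le
        rw [cexp, hsE]
        linarith

/-- The same bound for the exponent `c_n = -(1/n) log_2 ρ_n^*`. -/
theorem rate_bound (iid : IID) (s : Site Ω (Fin q)) {hg : ℝ} (hhg : 0 < hg) :
    cexp s hg / Real.log 2 ≤ liminf rate atTop := by
  apply le_of_forall_pos_le_add
  intro ε hε
  have hl2 : 0 < Real.log 2 := Real.log_pos one_lt_two
  obtain ⟨n0, hn0⟩ := packing_bound iid s hhg (ε := ε * Real.log 2) (by positivity)
  rw [← sub_le_iff_le_add]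
  apply le_liminf_of_le
  · exact (rate_bdd _).isCoboundedUnder_ge
  · filter_upwards [eventually_ge_atTop (max n0 1)] with n hn
    have hn1 : 1 ≤ n := (le_max_right _ _).trans hn
    have hnn : (0 : ℝ) < n := by exact_mod_cast hn1
    have h1 := hn0 n ((le_max_left _ _).trans hn)
    have h2 := Real.log_le_log (rho_pos hn1) h1
    rw [Real.log_exp] at h2
    unfold rate Real.logb
    rw [le_div_iff₀ hnn, ← neg_div, le_div_iff₀ hl2]
    have h3 : (cexp s hg / Real.log 2 - ε) * n * Real.log 2 = n * (cexp s hg - ε * Real.log 2) := by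
      field_simp
    rw [h3]; linarith

end

end Pool.Agent.H434R2.LP
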