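import Mathlib

set_option autoImplicit false

/-!
A small calculus of `p`-adic orders of rational numbers: `PO p k x` says that `p^k` divides `x`
in the ring of `p`-integral rationals.
-/

namespace Pool.Agent.H434R2

/-- `x` is divisible by `p ^ k` in the ring of `p`-integral rational numbers. -/
def PO (p k : ℕ) (x : ℚ) : Prop := padicNorm p x ≤ (p : ℚ) ^ (-(k : ℤ))

namespace PO

set_option linter.unusedSectionVars false

variable {p : ℕ} [hp : Fact p.Prime]

lemma pos (k : ℕ) : (0 : ℚ) < (p : ℚ) ^ (-(k : ℤ)) := by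
  have : (0 : ℚ) < p := by exact_mod_cast hp.out.pos
  positivity

lemma zero (k : ℕ) : PO p k 0 := by
  unfold PO; rw [padicNorm.zero]; exact (pos k).le

lemma add {k : ℕ} {x y : ℚ} (hx : PO p k x) (hy : PO p k y) : PO p k (x + y) :=
  le_trans padicNorm.nonarchimedean (max_le hx hy)

lemma neg {k : ℕ} {x : ℚ} (hx : PO p k x) : PO p k (-x) := by
  unfold PO at *; rwa [padicNorm.neg]

lemma sub {k : ℕ} {x y : ℚ} (hx : PO p k x) (hy : PO p k y) : PO p k (x - y) := by
  rw [sub_eq_add_neg]; exact hx.add hy.neg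

lemma mul {j k : ℕ} {x y : ℚ} (hx : PO p j x) (hy : PO p k y) : PO p (j + k) (x * y) := by
  unfold PO at *
  rw [padicNorm.mul]
  have h : ((p : ℚ) ^ (-((j + k : ℕ) : ℤ))) = (p : ℚ) ^ (-(j : ℤ)) * (p : ℚ) ^ (-(k : ℤ)) := by
    rw [← zpow_add₀ (by exact_mod_cast hp.out.ne_zero)]
    congr 1; push_cast; ring
  rw [h]
  exact mul_le_mul hx hy (padicNorm.nonneg _) (pos j).le

lemma mono {j k : ℕ} {x : ℚ} (h : k ≤ j) (hx : PO p j x) : PO p k x := by
  unfold PO at *
  refine le_trans hx ?_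
  apply zpow_le_zpow_right₀
  · exact_mod_cast hp.out.one_lt.le
  · omega

lemma mul0 {k : ℕ} {x y : ℚ} (hx : PO p 0 x) (hy : PO p k y) : PO p k (x * y) := by
  have := hx.mul hy
  rwa [zero_add] at this

lemma mul0' {k : ℕ} {x y : ℚ} (hx : PO p k x) (hy : PO p 0 y) : PO p k (x * y) := by
  have := hx.mul hy
  rwa [add_zero] at this

lemma of_int (z : ℤ) : PO p 0 (z : ℚ) := by
  unfold PO; simpa using padicNorm.of_int z

lemma of_nat (z : ℕ) : PO p 0 (z : ℚ) := by
  unfold PO; simpa using padicNorm.of_nat z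

lemma one : PO p 0 (1 : ℚ) := by simpa using of_nat (p := p) 1

lemma pow {j : ℕ} {x : ℚ} (hx : PO p j x) (n : ℕ) : PO p (j * n) (x ^ n) := by
  induction n with
  | zero => simpa using one
  | succ n ih =>
    rw [pow_succ, mul_add, mul_one]
    exact ih.mul hx

lemma pow0 {x : ℚ} (hx : PO p 0 x) (n : ℕ) : PO p 0 (x ^ n) := by
  have := hx.pow n
  rwa [zero_mul] at this

lemma sum {ι : Type*} {k : ℕ} (s : Finset ι) (f : ι → ℚ) (h : ∀ i ∈ s, PO p k (f i)) :
    PO p k (∑ i ∈ s, f i) := by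
  classical
  induction s using Finset.induction_on with
  | empty => simpa using zero k
  | insert a s ha ih =>
    rw [Finset.sum_insert ha]
    exact (h a (Finset.mem_insert_self _ _)).add (ih fun i hi => h i (Finset.mem_insert_of_mem hi))

/-- difference of products -/
lemma sum_sub {ι : Type*} {k : ℕ} (s : Finset ι) (f g : ι → ℚ) (h : ∀ i ∈ s, PO p k (f i - g i)) :
    PO p k (∑ i ∈ s, f i - ∑ i ∈ s, g i) := by
  rw [← Finset.sum_sub_distrib]
  exact sum s _ h

lemma norm_one_add {x : ℚ} (hx : PO p 1 x) : padicNorm p (1 + x) = 1 := by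
  have h1 : padicNorm p x < 1 := by
    unfold PO at hx
    refine lt_of_le_of_lt hx ?_
    have : (1 : ℚ) < p := by exact_mod_cast hp.out.one_lt
    simp only [Nat.cast_one, zpow_neg, zpow_one]
    exact inv_lt_one_of_one_lt₀ this
  have h2 : padicNorm p 1 ≠ padicNorm p x := by rw [padicNorm.one]; exact (ne_of_gt h1)
  rw [padicNorm.add_eq_max_of_ne h2, padicNorm.one]
  exact max_eq_left h1.le

lemma inv_of_norm {x : ℚ} (h : padicNorm p x = 1) : PO p 0 x⁻¹ := by
  unfold PO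
  have : padicNorm p x⁻¹ = 1 := by
    have h2 := padicNorm.div (p := p) 1 x
    rw [one_div] at h2
    rw [h2, h, padicNorm.one]; norm_num
  rw [this]; simp

lemma ne_zero_of_norm {x : ℚ} (h : padicNorm p x = 1) : x ≠ 0 := by
  rintro rfl
  rw [padicNorm.zero] at h
  norm_num at h

lemma inv_one_add {x : ℚ} (hx : PO p 1 x) : PO p 0 (1 + x)⁻¹ := inv_of_norm (norm_one_add hx)
lemma one_add_ne {x : ℚ} (hx : PO p 1 x) : 1 + x ≠ 0 := ne_zero_of_norm (norm_one_add hx)
lemma inv_one_sub {x : ℚ} (hx : PO p 1 x) : PO p 0 (1 - x)⁻¹ := by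
  rw [sub_eq_add_neg]; exact inv_one_add hx.neg
lemma one_sub_ne {x : ℚ} (hx : PO p 1 x) : 1 - x ≠ 0 := by
  rw [sub_eq_add_neg]; exact one_add_ne hx.neg

lemma norm_nat_of_not_dvd {m : ℕ} (h : ¬ p ∣ m) : padicNorm p (m : ℚ) = 1 :=
  padicNorm.nat_eq_one_iff _ |>.2 h

lemma inv_nat {m : ℕ} (h : ¬ p ∣ m) : PO p 0 ((m : ℚ)⁻¹) := inv_of_norm (norm_nat_of_not_dvd h)

lemma half (h2 : p ≠ 2) : PO p 0 (1 / 2 : ℚ) := by
  have h : ¬ p ∣ 2 := fun h => h2 ((Nat.prime_dvd_prime_iff_eq hp.out Nat.prime_two).1 h)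
  have := inv_nat h
  rw [one_div]; exact_mod_cast this

lemma norm_ppow (k : ℕ) : padicNorm p ((p : ℚ) ^ k) = (p : ℚ) ^ (-(k : ℤ)) := by
  have h1 : padicNorm p ((p : ℚ)) = (p : ℚ)⁻¹ := padicNorm.padicNorm_p_of_prime
  induction k with
  | zero => simp
  | succ k ih =>
    rw [pow_succ, padicNorm.mul, ih, h1]
    push_cast
    rw [neg_add, zpow_add₀ (by exact_mod_cast hp.out.ne_zero)]
    simp

/-- `p ^ k` itself. -/
lemma ppow (k : ℕ) : PO p k ((p : ℚ) ^ k) := (norm_ppow k).le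

lemma den_of_norm {q : ℚ} (h : padicNorm p q ≤ 1) : Nat.Coprime q.den p := by
  by_contra hc
  have hdvd : p ∣ q.den := by
    by_contra h'
    exact hc ((Nat.Prime.coprime_iff_not_dvd hp.out).2 h').symm
  have hnum : ¬ (p : ℤ) ∣ q.num := by
    intro h'
    have hco := q.reduced
    have h2 : p ∣ q.num.natAbs := Int.natCast_dvd.1 h'
    have := Nat.dvd_gcd h2 hdvd
    rw [hco] at this
    exact hp.out.one_lt.ne' (Nat.dvd_one.1 this)
  have e : q = (q.num : ℚ) / (q.den : ℚ) := (Rat.num_div_den q).symm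
  rw [e, padicNorm.div, (padicNorm.int_eq_one_iff _).2 hnum] at h
  have hd : padicNorm p (q.den : ℚ) < 1 := (padicNorm.nat_lt_one_iff _).2 hdvd
  have hd0 : 0 < padicNorm p (q.den : ℚ) := by
    refine lt_of_le_of_ne (padicNorm.nonneg _) (Ne.symm ?_)
    apply padicNorm.nonzero
    exact_mod_cast q.den_ne_zero
  rw [div_le_one hd0] at h
  linarith

lemma norm_of_den {q : ℚ} (h : Nat.Coprime q.den p) : padicNorm p q ≤ 1 := by
  have e : q = (q.num : ℚ) / (q.den : ℚ) := (Rat.num_div_den q).symm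
  rw [e, padicNorm.div]
  have : ¬ p ∣ q.den := (Nat.Prime.coprime_iff_not_dvd hp.out).1 h.symm
  rw [(padicNorm.nat_eq_one_iff _).2 this, div_one]
  exact padicNorm.of_int _

/-- If `x` is divisible by `p^k` then `x = p^k * r` with denominator of `r` prime to `p`. -/
lemma exists_rep {k : ℕ} {x : ℚ} (hx : PO p k x) : ∃ r : ℚ, Nat.Coprime r.den p ∧ x = (p : ℚ) ^ k * r := by
  have hp0 : (p : ℚ) ≠ 0 := by exact_mod_cast hp.out.ne_zero
  refine ⟨x / (p : ℚ) ^ k, ?_, by field_simp⟩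
  apply den_of_norm
  rw [padicNorm.div, norm_ppow, div_le_one (pos k)]
  exact hx

end PO

end Pool.Agent.H434R2
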